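import Mathlib

set_option autoImplicit false

open Metric Set Filter Topology Polynomial

namespace Pool.Agent.H701R2.Fol

/-- Real parts of polynomials are dense on circles. -/
theorem exists_poly_re_near (b : ℂ) {r : ℝ} (hr : 0 < r) {u : ℂ → ℝ}
    (hu : ContinuousOn u (sphere b r)) {η : ℝ} (hη : 0 < η) :
    ∃ k : ℂ[X], ∀ z ∈ sphere b r, |(k.eval z).re - u z| ≤ η := by
  have hT : Fact (0 < 2 * Real.pi) := ⟨by positivity⟩
  have hspan : ∀ v ∈ Submodule.span ℂ (range (@fourier (2 * Real.pi))), ∀ c : ℂ, ∃ k : ℂ[X],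
      ∀ x : AddCircle (2 * Real.pi), (c * v x).re = (k.eval (AddCircle.toCircle x : ℂ)).re := by
    intro v hv
    induction hv using Submodule.span_induction with
    | mem v hv =>
      obtain ⟨n, rfl⟩ := hv
      intro c
      rcases n with n | n
      · refine ⟨C c * X ^ n, fun x => ?_⟩
        simp [AddCircle.toCircle_nsmul]
      · refine ⟨C (starRingEnd ℂ c) * X ^ (n + 1), fun x => ?_⟩
        have h1 : (fourier (Int.negSucc n) x : ℂ)
            = starRingEnd ℂ ((AddCircle.toCircle x : ℂ) ^ (n + 1)) := by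
          rw [Int.negSucc_eq, fourier_neg, fourier_apply]
          congr 1
          have : ((n : ℤ) + 1) = ((n + 1 : ℕ) : ℤ) := by push_cast; ring
          rw [this, natCast_zsmul, AddCircle.toCircle_nsmul]
          simp
        rw [h1]
        have h2 : c * starRingEnd ℂ ((AddCircle.toCircle x : ℂ) ^ (n + 1))
            = starRingEnd ℂ (starRingEnd ℂ c * (AddCircle.toCircle x : ℂ) ^ (n + 1)) := by
          simp
        rw [h2, Complex.conj_re]
        simp
    | zero => intro c; exact ⟨0, by simp⟩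
    | add v w _ _ ihv ihw =>
      intro c
      obtain ⟨k1, h1⟩ := ihv c
      obtain ⟨k2, h2⟩ := ihw c
      refine ⟨k1 + k2, fun x => ?_⟩
      simp only [ContinuousMap.add_apply, mul_add, Complex.add_re, h1, h2, eval_add]
    | smul a v _ ih =>
      intro c
      obtain ⟨k, hk⟩ := ih (c * a)
      refine ⟨k, fun x => ?_⟩
      rw [← hk x]
      simp only [ContinuousMap.smul_apply, smul_eq_mul, mul_assoc]
  have hmaps : ∀ x : AddCircle (2 * Real.pi), b + r * (AddCircle.toCircle x : ℂ) ∈ sphere b r := by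
    intro x
    rw [mem_sphere_iff_norm, add_sub_cancel_left, norm_mul, Circle.norm_coe, mul_one,
      Complex.norm_real, Real.norm_eq_abs, abs_of_pos hr]
  have hcont : Continuous (fun x : AddCircle (2 * Real.pi) =>
      (u (b + r * (AddCircle.toCircle x : ℂ)) : ℂ)) := by
    refine Complex.continuous_ofReal.comp ?_
    refine hu.comp_continuous ?_ hmaps
    exact continuous_const.add (continuous_const.mul
      (continuous_subtype_val.comp AddCircle.continuous_toCircle))
  set v0 : C(AddCircle (2 * Real.pi), ℂ) := ⟨_, hcont⟩ with hv0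
  have hcl : v0 ∈ (Submodule.span ℂ (range (@fourier (2 * Real.pi)))).topologicalClosure := by
    rw [span_fourier_closure_eq_top]; trivial
  rw [← SetLike.mem_coe, Submodule.topologicalClosure_coe, Metric.mem_closure_iff] at hcl
  obtain ⟨v, hv, hdist⟩ := hcl η hη
  obtain ⟨k1, hk1⟩ := hspan v hv 1
  refine ⟨k1.comp (C (r : ℂ)⁻¹ * (X - C b)), fun z hz => ?_⟩
  have hz' : ‖((r : ℂ)⁻¹ * (z - b))‖ = 1 := by
    rw [norm_mul, norm_inv, Complex.norm_real, Real.norm_eq_abs, abs_of_pos hr]
    rw [mem_sphere_iff_norm] at hz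
    rw [hz]
    field_simp
  obtain ⟨x, hx⟩ := (AddCircle.homeomorphCircle (T := 2 * Real.pi) hT.out.ne').surjective
    (⟨_, mem_sphere_zero_iff_norm.2 hz'⟩ : Circle)
  have hx' : (AddCircle.toCircle x : ℂ) = (r : ℂ)⁻¹ * (z - b) := by
    rw [AddCircle.homeomorphCircle_apply] at hx
    rw [hx]
  have hzx : z = b + r * (AddCircle.toCircle x : ℂ) := by
    rw [hx']
    have : (r : ℂ) ≠ 0 := by exact_mod_cast hr.ne'
    rw [mul_inv_cancel_left₀ this]
    ring
  have e1 : (k1.comp (C (r : ℂ)⁻¹ * (X - C b))).eval z = k1.eval (AddCircle.toCircle x : ℂ) := by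
    rw [eval_comp]; simp [hx']
  rw [e1, ← hk1 x, one_mul]
  have h3 : ‖v0 x - v x‖ ≤ η := by
    rw [← dist_eq_norm]
    exact (ContinuousMap.dist_apply_le_dist x).trans hdist.le
  have h4 : (v0 x) = (u z : ℂ) := by
    rw [hv0]; simp only [ContinuousMap.coe_mk]
    rw [← hzx]
  have h5 : (v x).re - u z = -(v0 x - v x).re := by
    rw [h4]; simp
  rw [h5, abs_neg]
  exact (Complex.abs_re_le_norm _).trans h3

/-- A continuous nonnegative function on a circle with nonpositive average vanishes there. -/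
theorem eq_zero_of_circleAverage_le {b : ℂ} {r : ℝ} (hr : 0 < r) {G : ℂ → ℝ}
    (hG : ContinuousOn G (sphere b r)) (h0 : ∀ t ∈ sphere b r, 0 ≤ G t)
    (hav : Real.circleAverage G b r ≤ 0) : ∀ t ∈ sphere b r, G t = 0 := by
  intro t ht
  by_contra hne
  have hmaps : ∀ θ : ℝ, circleMap b r θ ∈ sphere b r := fun θ => circleMap_mem_sphere b hr.le θ
  have hc : Continuous (fun θ : ℝ => G (circleMap b r θ)) :=
    hG.comp_continuous (continuous_circleMap b r) hmaps
  obtain ⟨θ, hθ, hθt⟩ : ∃ θ ∈ Ico (0 : ℝ) (2 * Real.pi), circleMap b r θ = t := by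
    have := image_circleMap_Ioc b r
    have h1 : t ∈ circleMap b r '' Ioc 0 (2 * Real.pi) := by
      rw [this, abs_of_pos hr]; exact ht
    obtain ⟨θ, hθ, h⟩ := h1
    rcases eq_or_lt_of_le hθ.2 with h2 | h2
    · refine ⟨0, ⟨le_rfl, by positivity⟩, ?_⟩
      rw [← h, h2]
      have := periodic_circleMap b r 0
      simpa using this.symm
    · exact ⟨θ, ⟨hθ.1.le, h2⟩, h⟩
  have hpos : 0 < G (circleMap b r θ) := by
    rw [hθt]; exact lt_of_le_of_ne (h0 t ht) (Ne.symm hne)
  have : 0 < ∫ x in (0 : ℝ)..(2 * Real.pi), G (circleMap b r x) := by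
    refine intervalIntegral.integral_pos (by positivity) hc.continuousOn ?_ ?_
    · intro x _; exact h0 _ (hmaps x)
    · exact ⟨θ, ⟨hθ.1, hθ.2.le⟩, hpos⟩
  have h6 : 0 < Real.circleAverage G b r := by
    rw [Real.circleAverage_def, smul_eq_mul]
    positivity
  linarith

/-- Main mean-value lemma. -/
theorem lemmaZ {b : ℂ} {r : ℝ} (hr : 0 < r) {G : ℂ → ℝ}
    (hG : ContinuousOn G (sphere b r)) (h0 : ∀ t ∈ sphere b r, 0 ≤ G t)
    (H : ∀ η : ℝ, 0 < η → ∀ k : ℂ[X], (∀ t ∈ sphere b r, |(k.eval t).re - G t| ≤ η) →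
      (k.eval b).re ≤ η) : ∀ t ∈ sphere b r, G t = 0 := by
  refine eq_zero_of_circleAverage_le hr hG h0 ?_
  refine le_of_forall_pos_le_add fun ε hε => ?_
  obtain ⟨k, hk⟩ := exists_poly_re_near b hr hG (half_pos hε)
  have h1 := H (ε / 2) (half_pos hε) k hk
  have hint : CircleIntegrable G b r := by
    refine ContinuousOn.circleIntegrable hr.le hG
  have hk1 : Continuous (fun z : ℂ => (k.eval z).re) := Complex.continuous_re.comp k.continuous
  have hint2 : CircleIntegrable (fun z : ℂ => (k.eval z).re + ε / 2) b r :=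
    ContinuousOn.circleIntegrable hr.le (hk1.add continuous_const).continuousOn
  have h2 : Real.circleAverage G b r ≤ Real.circleAverage (fun z : ℂ => (k.eval z).re + ε / 2) b r := by
    refine Real.circleAverage_mono hint hint2 ?_
    intro x hx
    rw [abs_of_pos hr] at hx
    have := abs_le.1 (hk x hx)
    linarith [this.1]
  have h3 : Real.circleAverage (fun z : ℂ => (k.eval z).re + ε / 2) b r = (k.eval b).re + ε / 2 := by
    have e1 : Real.circleAverage (fun z : ℂ => k.eval z + ((ε / 2 : ℝ) : ℂ)) b r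
        = k.eval b + ((ε / 2 : ℝ) : ℂ) := by
      refine DiffContOnCl.circleAverage (f := fun z : ℂ => k.eval z + ((ε / 2 : ℝ) : ℂ)) ?_
      exact (Differentiable.diffContOnCl (by fun_prop))
    have e2 := Complex.reCLM.circleAverage_comp_comm (c := b) (R := r)
      (f := fun z : ℂ => k.eval z + ((ε / 2 : ℝ) : ℂ))
      (ContinuousOn.circleIntegrable hr.le (by fun_prop))
    rw [e1] at e2
    simpa [Function.comp_def] using e2
  rw [h3] at h2
  linarith

end Pool.Agent.H701R2.Fol
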