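import Pool.Agent.H701R2.FolA

set_option autoImplicit false

open Metric Set Filter Topology Polynomial

namespace Pool.Agent.H701R2.Fol

/-- Maximum principle for functions that are locally moduli of holomorphic functions off their
zero set. -/
theorem maxPrinciple {b : ℂ} {r M : ℝ} (hr : 0 < r) (hM0 : 0 ≤ M) {Q : ℂ → ℝ}
    (hQ : ContinuousOn Q (closedBall b r)) (hM : ∀ t ∈ sphere b r, Q t ≤ M)
    (hloc : ∀ t ∈ ball b r, Q t ≠ 0 → ∃ f : ℂ → ℂ, (∀ᶠ z in 𝓝 t, DifferentiableAt ℂ f z) ∧
      ∀ᶠ z in 𝓝 t, Q z = ‖f z‖) : ∀ t ∈ closedBall b r, Q t ≤ M := by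
  by_contra hcon
  push Not at hcon
  obtain ⟨t0, ht0, hQ0⟩ := hcon
  obtain ⟨ts, hts, hmax⟩ := (isCompact_closedBall b r).exists_isMaxOn ⟨t0, ht0⟩ hQ
  have hQs : M < Q ts := lt_of_lt_of_le hQ0 (hmax ht0)
  set S : Set ℂ := closedBall b r ∩ Q ⁻¹' {Q ts} with hS
  have hScl : IsClosed S := hQ.preimage_isClosed_of_isClosed isClosed_closedBall isClosed_singleton
  have hSball : S ⊆ ball b r := by
    rintro t ⟨ht, hQt⟩
    rcases eq_or_lt_of_le (mem_closedBall.1 ht) with h | h
    · have := hM t (mem_sphere.2 h)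
      have h2 : Q t = Q ts := hQt
      linarith
    · exact h
  have hSop : IsOpen S := by
    rw [isOpen_iff_mem_nhds]
    intro t ht
    have htb := hSball ht
    have h2 : Q t = Q ts := ht.2
    have hne : Q t ≠ 0 := by rw [h2]; exact (lt_of_le_of_lt hM0 hQs).ne'
    obtain ⟨f, hf, hQf⟩ := hloc t htb hne
    have hball : ∀ᶠ z in 𝓝 t, z ∈ ball b r := isOpen_ball.mem_nhds htb
    have hlm : IsLocalMax (norm ∘ f) t := by
      have e0 := hQf.self_of_nhds
      filter_upwards [hQf, hball] with z hz hzb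
      have h3 : Q z ≤ Q ts := hmax (ball_subset_closedBall hzb)
      simp only [Function.comp_apply]
      rw [← hz, ← e0, h2]
      exact h3
    have hcst := Complex.eventually_eq_of_isLocalMax_norm hf hlm
    have e0 := hQf.self_of_nhds
    filter_upwards [hQf, hball, hcst] with z hz hzb hzc
    refine ⟨ball_subset_closedBall hzb, ?_⟩
    show Q z = Q ts
    rw [hz, hzc, ← e0, h2]
  have huniv : S = univ := IsClopen.eq_univ ⟨hScl, hSop⟩ ⟨ts, hts, rfl⟩
  have hmem : (b + (2 * r : ℝ)) ∈ S := by rw [huniv]; trivial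
  have := hmem.1
  rw [mem_closedBall_iff_norm, add_sub_cancel_left, Complex.norm_real, Real.norm_eq_abs,
    abs_of_pos (by positivity)] at this
  linarith

theorem lemmaZ' {b : ℂ} {r0 : ℝ} (hr0 : 0 < r0) {G : ℂ → ℝ} (hG : ContinuousOn G (closedBall b r0))
    (h0 : ∀ t ∈ closedBall b r0, 0 ≤ G t) (hb : G b = 0) {S : Set ℂ} (hbS : b ∈ closure S)
    (H : ∀ r : ℝ, 0 < r → r ≤ r0 → ∀ η : ℝ, 0 < η → ∀ k : ℂ[X],
      (∀ t ∈ sphere b r, |(k.eval t).re - G t| ≤ η) → ∀ t ∈ ball b r, t ∈ S →
        (k.eval t).re - G t ≤ η) : ∀ t ∈ closedBall b r0, G t = 0 := by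
  have key : ∀ r : ℝ, 0 < r → r ≤ r0 → ∀ t ∈ sphere b r, G t = 0 := by
    intro r hr hrr0
    have hsub : closedBall b r ⊆ closedBall b r0 := closedBall_subset_closedBall hrr0
    refine lemmaZ hr (hG.mono (sphere_subset_closedBall.trans hsub))
      (fun t ht => h0 t (hsub (sphere_subset_closedBall ht))) ?_
    intro η hη k hk
    have h1 := H r hr hrr0 η hη k hk
    by_contra hlt
    push Not at hlt
    have hcb : ContinuousAt (fun t => (k.eval t).re - G t) b :=
      (Complex.continuous_re.comp k.continuous).continuousAt.sub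
        (hG.continuousAt (closedBall_mem_nhds b hr0))
    have hev : ∀ᶠ t in 𝓝 b, η < (k.eval t).re - G t := by
      refine hcb.eventually_const_lt ?_
      simpa [hb] using hlt
    have hfr : ∃ᶠ t in 𝓝 b, t ∈ S := mem_closure_iff_frequently.1 hbS
    obtain ⟨t, htS, ht1, ht2⟩ := (hfr.and_eventually (hev.and (ball_mem_nhds b hr))).exists
    exact absurd (h1 t ht2 htS) (not_le.2 ht1)
  intro t ht
  rcases eq_or_ne t b with rfl | hne
  · exact hb
  · exact key (dist t b) (dist_pos.2 hne) ht t rfl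

/-- Rado-type lemma. -/
theorem lemmaA {G : ℂ → ℝ} {g : ℂ → ℂ} {ρ C : ℝ} (hG : ContinuousOn G (ball 0 ρ))
    (hG0 : ∀ t ∈ ball (0 : ℂ) ρ, 0 ≤ G t) (h00 : G 0 = 0)
    (hloc : ∀ t ∈ ball (0 : ℂ) ρ, 0 < G t → ∃ h : ℂ → ℂ, (∀ᶠ z in 𝓝 t, DifferentiableAt ℂ h z) ∧
      ∀ᶠ z in 𝓝 t, G z = (h z).re)
    (hg : ∀ t ∈ ball (0 : ℂ) ρ, 0 < G t → DifferentiableAt ℂ g t)
    (hgG : ∀ t ∈ ball (0 : ℂ) ρ, ‖g t‖ ≤ C * G t) : ∀ t ∈ ball (0 : ℂ) ρ, g t = 0 := by
  by_contra hne
  push Not at hne
  obtain ⟨t1, ht1, hgt1⟩ := hne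
  have hzero : ∀ t ∈ ball (0 : ℂ) ρ, G t = 0 → g t = 0 := by
    intro t ht h
    have := hgG t ht
    rw [h, mul_zero] at this
    exact norm_le_zero_iff.1 this
  have hposev : ∀ t ∈ ball (0 : ℂ) ρ, 0 < G t → ∀ᶠ z in 𝓝 t, z ∈ ball (0 : ℂ) ρ ∧ 0 < G z := by
    intro t ht hpos
    have h1 : ContinuousAt G t := hG.continuousAt (isOpen_ball.mem_nhds ht)
    have h2 : ∀ᶠ z in 𝓝 t, z ∈ ball (0 : ℂ) ρ := isOpen_ball.mem_nhds ht
    exact h2.and (h1.eventually_const_lt hpos)
  have hgcont : ContinuousOn g (ball 0 ρ) := by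
    intro t ht
    rcases eq_or_lt_of_le (hG0 t ht) with h | h
    · refine ContinuousAt.continuousWithinAt ?_
      have h1 : ContinuousAt G t := hG.continuousAt (isOpen_ball.mem_nhds ht)
      have hgt : g t = 0 := hzero t ht h.symm
      unfold ContinuousAt
      rw [hgt]
      have hlim : Tendsto (fun z => C * G z) (𝓝 t) (𝓝 0) := by
        have := (h1.tendsto.const_mul C)
        rw [← h, mul_zero] at this
        exact this
      refine squeeze_zero_norm' ?_ hlim
      filter_upwards [isOpen_ball.mem_nhds ht] with z hz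
      exact hgG z hz
    · exact (hg t ht h).continuousAt.continuousWithinAt
  set S : Set ℂ := {t | t ∈ ball (0 : ℂ) ρ ∧ g t ≠ 0} with hS
  -- Step 1: a boundary point
  obtain ⟨b, hb, hbS, hGb⟩ : ∃ b ∈ ball (0 : ℂ) ρ, b ∈ closure S ∧ G b = 0 := by
    by_contra hno
    push Not at hno
    have hint : ∀ t ∈ ball (0 : ℂ) ρ, t ∈ closure S → t ∈ interior (closure S) := by
      intro t ht htS
      have hpos : 0 < G t := lt_of_le_of_ne (hG0 t ht) (Ne.symm (hno t ht htS))
      have hev := hposev t ht hpos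
      have han : AnalyticAt ℂ g t := by
        rw [Complex.analyticAt_iff_eventually_differentiableAt]
        filter_upwards [hev] with z hz using hg z hz.1 hz.2
      rcases han.eventually_eq_zero_or_eventually_ne_zero with h | h
      · exfalso
        have hfr : ∃ᶠ z in 𝓝 t, z ∈ S := mem_closure_iff_frequently.1 htS
        obtain ⟨z, hz1, hz2⟩ := (hfr.and_eventually h).exists
        exact hz1.2 hz2
      · rw [mem_interior_iff_mem_nhds]
        rw [eventually_nhdsWithin_iff] at h
        filter_upwards [h, hev] with z hz hz2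
        rcases eq_or_ne z t with rfl | hzt
        · exact htS
        · exact subset_closure ⟨hz2.1, hz hzt⟩
    have hsub : ball (0 : ℂ) ρ ⊆ interior (closure S) := by
      refine (convex_ball (0 : ℂ) ρ).isPreconnected.subset_of_closure_inter_subset isOpen_interior
        ⟨t1, ht1, hint t1 ht1 (subset_closure ⟨ht1, hgt1⟩)⟩ ?_
      rintro t ⟨htc, htb⟩
      refine hint t htb ?_
      exact closure_minimal interior_subset isClosed_closure htc
    have hρ : 0 < ρ := by
      have := mem_ball.1 ht1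
      exact lt_of_le_of_lt dist_nonneg this
    exact hno 0 (mem_ball_self hρ) (interior_subset (hsub (mem_ball_self hρ))) h00
  obtain ⟨r0, hr0, hr0sub⟩ : ∃ r0 > 0, closedBall b r0 ⊆ ball (0 : ℂ) ρ :=
    nhds_basis_closedBall.mem_iff.1 (isOpen_ball.mem_nhds hb)
  have hGzero : ∀ t ∈ closedBall b r0, G t = 0 := by
    refine lemmaZ' hr0 (hG.mono hr0sub) (fun t ht => hG0 t (hr0sub ht)) hGb hbS ?_
    intro r hr hrr0 η hη k hk t ht htS
    have hsub : closedBall b r ⊆ ball (0 : ℂ) ρ := (closedBall_subset_closedBall hrr0).trans hr0sub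
    obtain ⟨M, hM⟩ := (isCompact_closedBall b r).exists_bound_of_continuousOn (hgcont.mono hsub)
    have hM0 : 0 ≤ M := (norm_nonneg _).trans (hM b (mem_closedBall_self hr.le))
    have hbound : ∀ m : ℕ, ‖g t‖ * Real.exp (m * ((k.eval t).re - G t)) ≤ M * Real.exp (m * η) := by
      intro m
      refine maxPrinciple (Q := fun z => ‖g z‖ * Real.exp (m * ((k.eval z).re - G z))) hr
        (by positivity) ?_ ?_ ?_ t (ball_subset_closedBall ht)
      · refine (hgcont.mono hsub).norm.mul (Real.continuous_exp.comp_continuousOn ?_)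
        refine continuousOn_const.mul ?_
        exact (Complex.continuous_re.comp k.continuous).continuousOn.sub (hG.mono hsub)
      · intro z hz
        have h1 := abs_le.1 (hk z hz)
        have h2 := hM z (sphere_subset_closedBall hz)
        show ‖g z‖ * Real.exp (m * ((k.eval z).re - G z)) ≤ M * Real.exp (m * η)
        gcongr
        exact h1.2
      · intro z hz hQz
        have hzb : z ∈ ball (0 : ℂ) ρ := hsub (ball_subset_closedBall hz)
        have hgz : g z ≠ 0 := by
          intro h; apply hQz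
          show ‖g z‖ * Real.exp (m * ((k.eval z).re - G z)) = 0
          rw [h]; simp
        have hpos : 0 < G z := by
          refine lt_of_le_of_ne (hG0 z hzb) ?_
          intro h; exact hgz (hzero z hzb h.symm)
        obtain ⟨h, hh1, hh2⟩ := hloc z hzb hpos
        refine ⟨fun w => g w * Complex.exp (m * (k.eval w - h w)), ?_, ?_⟩
        · filter_upwards [hh1, hposev z hzb hpos] with w hw hw2
          have e1 := hg w hw2.1 hw2.2
          have e2 : DifferentiableAt ℂ (fun w => k.eval w) w := k.differentiable.differentiableAt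
          fun_prop
        · filter_upwards [hh2] with w hw
          rw [norm_mul, Complex.norm_exp]
          congr 2
          rw [hw]
          simp
    by_contra hlt
    push Not at hlt
    set δ := (k.eval t).re - G t - η with hδ
    have hδ0 : 0 < δ := by linarith
    have hb2 : ∀ m : ℕ, ‖g t‖ * Real.exp (m * δ) ≤ M := by
      intro m
      have h1 := hbound m
      have h2 : Real.exp (m * ((k.eval t).re - G t)) = Real.exp (m * δ) * Real.exp (m * η) := by
        rw [← Real.exp_add]; congr 1; rw [hδ]; ring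
      rw [h2, ← mul_assoc] at h1
      exact le_of_mul_le_mul_right h1 (Real.exp_pos _)
    have hgt : 0 < ‖g t‖ := norm_pos_iff.2 htS.2
    have htend : Tendsto (fun m : ℕ => ‖g t‖ * Real.exp (m * δ)) atTop atTop := by
      refine Tendsto.const_mul_atTop hgt ?_
      refine Real.tendsto_exp_atTop.comp ?_
      exact Tendsto.atTop_mul_const hδ0 tendsto_natCast_atTop_atTop
    obtain ⟨m, hm⟩ := (htend.eventually_gt_atTop M).exists
    exact absurd (hb2 m) (not_le.2 hm)
  have hfr : ∃ᶠ z in 𝓝 b, z ∈ S := mem_closure_iff_frequently.1 hbS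
  obtain ⟨z, hz1, hz2⟩ := (hfr.and_eventually (closedBall_mem_nhds b hr0)).exists
  exact hz1.2 (hzero z hz1.1 (hGzero z hz2))

/-- Final contradiction lemma. -/
theorem lemmaB {G : ℂ → ℝ} {ξ : ℕ → ℂ → ℂ} {D : ℕ → ℝ} {ρ C : ℝ} (hρ : 0 < ρ)
    (hG : ContinuousOn G (ball 0 ρ))
    (hG0 : ∀ t ∈ ball (0 : ℂ) ρ, 0 ≤ G t) (h00 : G 0 = 0)
    (hD : ∀ n, (2 : ℝ) ^ n ≤ D n)
    (hξ : ∀ n, DifferentiableOn ℂ (ξ n) (ball 0 ρ))
    (hUB : ∀ t ∈ ball (0 : ℂ) ρ, ∀ n : ℕ, ‖ξ n t‖ ≤ Real.exp (C * (n + 1) - D n * G t))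
    (hLB : ∀ t ∈ ball (0 : ℂ) ρ, 0 < G t → ∃ c : ℝ, ∃ N : ℕ, ∀ n ≥ N,
      Real.exp (-(c * (n + 1)) - D n * G t) ≤ ‖ξ n t‖) : ∀ᶠ t in 𝓝 (0 : ℂ), G t = 0 := by
  by_contra hcon
  set S : Set ℂ := {t | t ∈ ball (0 : ℂ) ρ ∧ 0 < G t} with hS
  have hfr : ∃ᶠ t in 𝓝 (0 : ℂ), t ∈ S := by
    have h1 : ∃ᶠ t in 𝓝 (0 : ℂ), G t ≠ 0 := Filter.not_eventually.1 hcon
    refine (h1.and_eventually (isOpen_ball.mem_nhds (mem_ball_self hρ))).mono ?_
    rintro t ⟨ht1, ht2⟩
    exact ⟨ht2, lt_of_le_of_ne (hG0 t ht2) (Ne.symm ht1)⟩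
  have hbS : (0 : ℂ) ∈ closure S := mem_closure_iff_frequently.2 hfr
  have hr0sub : closedBall (0 : ℂ) (ρ / 2) ⊆ ball (0 : ℂ) ρ :=
    closedBall_subset_ball (by linarith)
  have hGzero : ∀ t ∈ closedBall (0 : ℂ) (ρ / 2), G t = 0 := by
    refine lemmaZ' (half_pos hρ) (hG.mono hr0sub) (fun t ht => hG0 t (hr0sub ht)) h00 hbS ?_
    intro r hr hrr0 η hη k hk t ht htS
    have hsub : closedBall (0 : ℂ) r ⊆ ball (0 : ℂ) ρ :=
      (closedBall_subset_closedBall hrr0).trans hr0sub
    obtain ⟨c, N, hcN⟩ := hLB t htS.1 htS.2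
    have hbound : ∀ n ≥ N, D n * ((k.eval t).re - G t - η) ≤ (C + c) * (n + 1) := by
      intro n hn
      have hdiff : DiffContOnCl ℂ (fun z => ξ n z * Complex.exp (D n * k.eval z))
          (ball (0 : ℂ) r) := by
        have hk2 : Differentiable ℂ (fun z => k.eval z) := k.differentiable
        have h1 : DifferentiableOn ℂ (fun z => ξ n z * Complex.exp (D n * k.eval z))
            (closedBall (0 : ℂ) r) := by
          refine ((hξ n).mono hsub).mul ?_
          exact Differentiable.differentiableOn (by fun_prop)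
        exact (h1.mono closure_ball_subset_closedBall).diffContOnCl
      have h2 : ‖ξ n t * Complex.exp (D n * k.eval t)‖ ≤ Real.exp (C * (n + 1) + D n * η) := by
        refine Complex.norm_le_of_forall_mem_frontier_norm_le isBounded_ball hdiff ?_
          (subset_closure ht)
        intro z hz
        rw [frontier_ball _ hr.ne'] at hz
        have h3 := hUB z (hsub (sphere_subset_closedBall hz)) n
        have h4 := (abs_le.1 (hk z hz)).2
        have hDn : 0 ≤ D n := (pow_nonneg (by norm_num) n).trans (hD n)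
        rw [norm_mul, Complex.norm_exp]
        have h5 : ((D n : ℂ) * k.eval z).re = D n * (k.eval z).re := by simp
        rw [h5]
        calc ‖ξ n z‖ * Real.exp (D n * (k.eval z).re)
            ≤ Real.exp (C * (n + 1) - D n * G z) * Real.exp (D n * (k.eval z).re) := by gcongr
          _ = Real.exp (C * (n + 1) + D n * ((k.eval z).re - G z)) := by
              rw [← Real.exp_add]; congr 1; ring
          _ ≤ Real.exp (C * (n + 1) + D n * η) := by gcongr
      have h6 := hcN n hn
      rw [norm_mul, Complex.norm_exp] at h2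
      have h5 : ((D n : ℂ) * k.eval t).re = D n * (k.eval t).re := by simp
      rw [h5] at h2
      have h7 : Real.exp (-(c * (n + 1)) - D n * G t) * Real.exp (D n * (k.eval t).re)
          ≤ Real.exp (C * (n + 1) + D n * η) :=
        le_trans (by gcongr) h2
      rw [← Real.exp_add, Real.exp_le_exp] at h7
      nlinarith [h7]
    by_contra hlt
    push Not at hlt
    set δ := (k.eval t).re - G t - η with hδ
    have hδ0 : 0 < δ := by linarith
    have hlim : Tendsto (fun n : ℕ => (C + c) * (n + 1) / (2 : ℝ) ^ n) atTop (𝓝 0) := by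
      have h1 : Tendsto (fun n : ℕ => (n : ℝ) * (1 / 2 : ℝ) ^ n) atTop (𝓝 0) :=
        tendsto_self_mul_const_pow_of_lt_one (by norm_num) (by norm_num)
      have h2 : Tendsto (fun n : ℕ => (1 / 2 : ℝ) ^ n) atTop (𝓝 0) :=
        tendsto_pow_atTop_nhds_zero_of_lt_one (by norm_num) (by norm_num)
      have h3 := (h1.add h2).const_mul (C + c)
      simp only [add_zero, mul_zero] at h3
      refine h3.congr ?_
      intro n
      rw [one_div, inv_pow]
      field_simp
    obtain ⟨n, hn1, hn2⟩ := ((hlim.eventually_lt_const hδ0).and (eventually_ge_atTop N)).exists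
    have h8 := hbound n hn2
    have h9 : (C + c) * (n + 1) < δ * 2 ^ n := by
      rwa [div_lt_iff₀ (by positivity)] at hn1
    have h10 : δ * 2 ^ n ≤ D n * δ := by
      rw [mul_comm δ]
      exact mul_le_mul_of_nonneg_right (hD n) hδ0.le
    linarith
  obtain ⟨z, hz1, hz2⟩ := (hfr.and_eventually (closedBall_mem_nhds (0 : ℂ) (half_pos hρ))).exists
  exact hz1.2.ne' (hGzero z hz2)

end Pool.Agent.H701R2.Fol
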