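import Mathlib

set_option autoImplicit false

open Metric Set Filter Topology Polynomial

namespace Pool.Agent.H701R2.Fol

theorem eval_near_lead (p : ℂ[X]) {ε : ℝ} (hε : 0 < ε) (hd : 1 ≤ p.natDegree) :
    ∃ R0 : ℝ, 1 ≤ R0 ∧ ∀ x : ℂ, R0 ≤ ‖x‖ →
      ‖p.eval x - p.leadingCoeff * x ^ p.natDegree‖ ≤ ε * ‖x‖ ^ p.natDegree := by
  set K := ∑ i ∈ Finset.range p.natDegree, ‖p.coeff i‖ with hK
  have hK0 : 0 ≤ K := Finset.sum_nonneg fun i _ => norm_nonneg _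
  refine ⟨1 + K / ε, by have := div_nonneg hK0 hε.le; linarith, fun x hx => ?_⟩
  have hx1 : 1 ≤ ‖x‖ := by have := div_nonneg hK0 hε.le; linarith
  have hxK : K ≤ ε * ‖x‖ := by
    have : K / ε ≤ ‖x‖ := by linarith
    rw [div_le_iff₀ hε] at this
    linarith
  have h1 : p.eval x - p.leadingCoeff * x ^ p.natDegree
      = ∑ i ∈ Finset.range p.natDegree, p.coeff i * x ^ i := by
    rw [eval_eq_sum_range, Finset.sum_range_succ, coeff_natDegree]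
    ring
  rw [h1]
  calc ‖∑ i ∈ Finset.range p.natDegree, p.coeff i * x ^ i‖
      ≤ ∑ i ∈ Finset.range p.natDegree, ‖p.coeff i * x ^ i‖ := norm_sum_le _ _
    _ ≤ ∑ i ∈ Finset.range p.natDegree, ‖p.coeff i‖ * ‖x‖ ^ (p.natDegree - 1) := by
        refine Finset.sum_le_sum fun i hi => ?_
        rw [norm_mul, norm_pow]
        refine mul_le_mul_of_nonneg_left ?_ (norm_nonneg _)
        refine pow_le_pow_right₀ hx1 ?_
        have := Finset.mem_range.1 hi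
        omega
    _ = K * ‖x‖ ^ (p.natDegree - 1) := by rw [hK, Finset.sum_mul]
    _ ≤ (ε * ‖x‖) * ‖x‖ ^ (p.natDegree - 1) := by gcongr
    _ = ε * ‖x‖ ^ p.natDegree := by
        rw [mul_assoc, ← pow_succ', Nat.sub_add_cancel hd]

/-- Estimates for one elementary Henon map. -/
structure Good1 (p : ℂ[X]) (a : ℂ) (R C : ℝ) : Prop where
  deg : 2 ≤ p.natDegree
  degle : (p.natDegree : ℝ) ≤ C
  ha : a ≠ 0
  hR : 1 ≤ R
  hC : 0 ≤ C
  dbl : ∀ x y : ℂ, R ≤ ‖x‖ → ‖y‖ ≤ ‖x‖ → 2 * ‖x‖ ≤ ‖p.eval x - a * y‖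
  near : ∀ x y : ℂ, R ≤ ‖x‖ → ‖y‖ ≤ ‖x‖ →
    ‖(p.eval x - a * y) / (p.leadingCoeff * x ^ p.natDegree) - 1‖ ≤ 1 / 2
  lc : |Real.log ‖p.leadingCoeff‖| ≤ C
  dge : ∀ x : ℂ, R ≤ ‖x‖ → ‖a‖ + 1 ≤ ‖p.derivative.eval x‖
  dgrow : ∀ x y : ℂ, R ≤ ‖x‖ → ‖y‖ ≤ ‖x‖ →
    3 / 2 * ‖p.eval x - a * y‖ ≤ (‖p.derivative.eval x‖ - ‖a‖) * ‖x‖
  dup : ∀ x : ℂ, R ≤ ‖x‖ → ‖a‖ * ‖x‖ ^ (p.natDegree - 1) ≤
    Real.exp C * (‖p.derivative.eval x‖ - 1)
  dlo : ∀ x : ℂ, R ≤ ‖x‖ → ‖p.derivative.eval x‖ + 1 ≤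
    Real.exp C * (‖a‖ * ‖x‖ ^ (p.natDegree - 1))

theorem Good1.mono {p : ℂ[X]} {a : ℂ} {R C R' C' : ℝ} (h : Good1 p a R C) (hR : R ≤ R')
    (hC : C ≤ C') : Good1 p a R' C' where
  deg := h.deg
  degle := h.degle.trans hC
  ha := h.ha
  hR := h.hR.trans hR
  hC := h.hC.trans hC
  dbl := fun x y hx hy => h.dbl x y (hR.trans hx) hy
  near := fun x y hx hy => h.near x y (hR.trans hx) hy
  lc := h.lc.trans hC
  dge := fun x hx => h.dge x (hR.trans hx)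
  dgrow := fun x y hx hy => h.dgrow x y (hR.trans hx) hy
  dup := fun x hx => by
    have h1 := h.dup x (hR.trans hx)
    have h2 := h.dge x (hR.trans hx)
    have h3 : 0 ≤ ‖p.derivative.eval x‖ - 1 := by linarith [norm_nonneg a]
    exact h1.trans (mul_le_mul_of_nonneg_right (Real.exp_le_exp.2 hC) h3)
  dlo := fun x hx => by
    have h1 := h.dlo x (hR.trans hx)
    exact h1.trans (mul_le_mul_of_nonneg_right (Real.exp_le_exp.2 hC) (by positivity))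

theorem exists_good1 {p : ℂ[X]} {a : ℂ} (hd : 2 ≤ p.natDegree) (ha : a ≠ 0) :
    ∃ R C : ℝ, Good1 p a R C := by
  have hc0 : p.leadingCoeff ≠ 0 := by
    intro h
    rw [leadingCoeff_eq_zero] at h
    rw [h] at hd; simp at hd
  set c := p.leadingCoeff with hc
  set d := p.natDegree with hdd
  set ε := ‖c‖ / 10 with hε
  have hcpos : 0 < ‖c‖ := norm_pos_iff.2 hc0
  have hapos : 0 < ‖a‖ := norm_pos_iff.2 ha
  have hεpos : 0 < ε := by positivity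
  have hcε : ‖c‖ = 10 * ε := by rw [hε]; ring
  have hd' : p.derivative.natDegree = d - 1 := natDegree_derivative p
  have hlc' : p.derivative.leadingCoeff = d * c := by
    rw [leadingCoeff, hd', coeff_derivative, Nat.sub_add_cancel (by omega)]
    rw [hc, leadingCoeff, ← hdd, mul_comm]
    congr 1
    have : ((d - 1 : ℕ) : ℂ) = (d : ℂ) - 1 := by
      rw [Nat.cast_sub (by omega)]; simp
    rw [this]; ring
  obtain ⟨R1, hR1, h1⟩ := eval_near_lead p hεpos (by omega)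
  obtain ⟨R2, hR2, h2⟩ := eval_near_lead p.derivative hεpos (by rw [hd']; omega)
  rw [hd', hlc'] at h2
  rw [← hc, ← hdd] at h1
  set K := ‖a‖ / (18 * ε) + (10 * d + 2) * ε / ‖a‖ with hK
  have hK0 : 0 ≤ K := by positivity
  refine ⟨R1 + R2 + (‖a‖ + 1) / ε, d + |Real.log ‖c‖| + Real.log (1 + K), ?_⟩
  have hfr : 0 ≤ (‖a‖ + 1) / ε := by positivity
  have hlogK : 0 ≤ Real.log (1 + K) := Real.log_nonneg (by linarith)
  have hexpC : K ≤ Real.exp (d + |Real.log ‖c‖| + Real.log (1 + K)) := by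
    calc K ≤ 1 + K := by linarith
      _ = Real.exp (Real.log (1 + K)) := (Real.exp_log (by linarith)).symm
      _ ≤ _ := by
        apply Real.exp_le_exp.2
        have : (0 : ℝ) ≤ d := Nat.cast_nonneg d
        have := abs_nonneg (Real.log ‖c‖)
        linarith
  -- basic facts for large x
  have basic : ∀ x : ℂ, R1 + R2 + (‖a‖ + 1) / ε ≤ ‖x‖ →
      1 ≤ ‖x‖ ∧ ‖a‖ + 1 ≤ ε * ‖x‖ ^ (d - 1) ∧ ‖x‖ ^ d = ‖x‖ ^ (d - 1) * ‖x‖ ∧
      ‖p.eval x - c * x ^ d‖ ≤ ε * (‖x‖ ^ (d - 1) * ‖x‖) ∧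
      ‖p.derivative.eval x - d * c * x ^ (d - 1)‖ ≤ ε * ‖x‖ ^ (d - 1) := by
    intro x hx
    have e1 : 1 ≤ ‖x‖ := by linarith
    have e3 : ‖x‖ ^ d = ‖x‖ ^ (d - 1) * ‖x‖ := by
      rw [← pow_succ, Nat.sub_add_cancel (by omega)]
    refine ⟨e1, ?_, e3, ?_, ?_⟩
    · have : (‖a‖ + 1) / ε ≤ ‖x‖ := by linarith
      rw [div_le_iff₀ hεpos] at this
      calc ‖a‖ + 1 ≤ ‖x‖ * ε := this
        _ = ε * ‖x‖ ^ 1 := by ring
        _ ≤ ε * ‖x‖ ^ (d - 1) := by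
          refine mul_le_mul_of_nonneg_left ?_ hεpos.le
          exact pow_le_pow_right₀ e1 (by omega)
    · have := h1 x (by linarith)
      rwa [e3] at this
    · exact h2 x (by linarith)
  -- difference p(x) - a y - c x^d
  have basic2 : ∀ x y : ℂ, R1 + R2 + (‖a‖ + 1) / ε ≤ ‖x‖ → ‖y‖ ≤ ‖x‖ →
      ‖p.eval x - a * y - c * x ^ d‖ ≤ 2 * ε * (‖x‖ ^ (d - 1) * ‖x‖) := by
    intro x y hx hy
    obtain ⟨e1, e2, e3, e4, e5⟩ := basic x hx
    have : p.eval x - a * y - c * x ^ d = (p.eval x - c * x ^ d) - a * y := by ring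
    rw [this]
    calc ‖(p.eval x - c * x ^ d) - a * y‖ ≤ ‖p.eval x - c * x ^ d‖ + ‖a * y‖ := norm_sub_le _ _
      _ ≤ ε * (‖x‖ ^ (d - 1) * ‖x‖) + ‖a‖ * ‖x‖ := by
          rw [norm_mul]; gcongr
      _ ≤ ε * (‖x‖ ^ (d - 1) * ‖x‖) + (ε * ‖x‖ ^ (d - 1)) * ‖x‖ := by
          gcongr; linarith
      _ = _ := by ring
  have hdge : ∀ x : ℂ, R1 + R2 + (‖a‖ + 1) / ε ≤ ‖x‖ →
      19 * (ε * ‖x‖ ^ (d - 1)) ≤ ‖p.derivative.eval x‖ ∧
      ‖p.derivative.eval x‖ ≤ (10 * d + 1) * (ε * ‖x‖ ^ (d - 1)) := by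
    intro x hx
    obtain ⟨e1, e2, e3, e4, e5⟩ := basic x hx
    have hn : ‖(d : ℂ) * c * x ^ (d - 1)‖ = 10 * d * (ε * ‖x‖ ^ (d - 1)) := by
      rw [norm_mul, norm_mul, norm_pow, hcε, Complex.norm_natCast]; ring
    have hd2 : (2 : ℝ) ≤ d := by exact_mod_cast hd
    have hu : 0 ≤ ε * ‖x‖ ^ (d - 1) := by positivity
    constructor
    · have h3 : ‖(d : ℂ) * c * x ^ (d - 1)‖ - ‖p.derivative.eval x‖ ≤
          ‖p.derivative.eval x - d * c * x ^ (d - 1)‖ := by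
        rw [norm_sub_rev]; exact norm_sub_norm_le _ _
      rw [hn] at h3
      nlinarith
    · have h3 : ‖p.derivative.eval x‖ - ‖(d : ℂ) * c * x ^ (d - 1)‖ ≤
          ‖p.derivative.eval x - d * c * x ^ (d - 1)‖ := norm_sub_norm_le _ _
      rw [hn] at h3
      nlinarith
  have hcx : ∀ x : ℂ, ‖c * x ^ d‖ = 10 * ε * ‖x‖ ^ d := by
    intro x; rw [norm_mul, norm_pow, hcε]
  refine
    { deg := hd
      degle := ?_
      ha := ha
      hR := by linarith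
      hC := ?_
      dbl := ?_
      near := ?_
      lc := ?_
      dge := ?_
      dgrow := ?_
      dup := ?_
      dlo := ?_ }
  · have := abs_nonneg (Real.log ‖c‖); linarith
  · have := abs_nonneg (Real.log ‖c‖)
    have : (0 : ℝ) ≤ d := Nat.cast_nonneg d
    linarith
  · intro x y hx hy
    obtain ⟨e1, e2, e3, e4, e5⟩ := basic x hx
    have h3 := basic2 x y hx hy
    have h4 : ‖c * x ^ d‖ - ‖p.eval x - a * y‖ ≤ ‖p.eval x - a * y - c * x ^ d‖ := by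
      have h40 := norm_sub_norm_le (c * x ^ d) (p.eval x - a * y)
      rwa [norm_sub_rev (c * x ^ d)] at h40
    rw [hcx, e3] at h4
    have h5 : 1 * ‖x‖ ≤ (ε * ‖x‖ ^ (d - 1)) * ‖x‖ := by
      gcongr; linarith
    nlinarith
  · intro x y hx hy
    obtain ⟨e1, e2, e3, e4, e5⟩ := basic x hx
    have h3 := basic2 x y hx hy
    have hx0 : x ≠ 0 := by
      intro h; rw [h] at e1; simp at e1; linarith
    have hcx0 : c * x ^ d ≠ 0 := mul_ne_zero hc0 (pow_ne_zero _ hx0)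
    have h4 : (p.eval x - a * y) / (c * x ^ d) - 1
        = (p.eval x - a * y - c * x ^ d) / (c * x ^ d) := by
      field_simp
    rw [h4, norm_div, div_le_iff₀ (norm_pos_iff.2 hcx0), hcx, e3]
    have : 0 ≤ ε * (‖x‖ ^ (d - 1) * ‖x‖) := by positivity
    nlinarith
  · have : (0 : ℝ) ≤ d := Nat.cast_nonneg d
    linarith
  · intro x hx
    obtain ⟨e1, e2, e3, e4, e5⟩ := basic x hx
    have h3 := (hdge x hx).1
    have : 0 ≤ ε * ‖x‖ ^ (d - 1) := by positivity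
    linarith
  · intro x y hx hy
    obtain ⟨e1, e2, e3, e4, e5⟩ := basic x hx
    have h3 := basic2 x y hx hy
    have h4 : ‖p.eval x - a * y‖ - ‖c * x ^ d‖ ≤ ‖p.eval x - a * y - c * x ^ d‖ :=
      norm_sub_norm_le _ _
    rw [hcx, e3] at h4
    have h5 := (hdge x hx).1
    have h6 : 18 * (ε * ‖x‖ ^ (d - 1)) * ‖x‖ ≤ (‖p.derivative.eval x‖ - ‖a‖) * ‖x‖ := by
      gcongr; linarith
    nlinarith
  · intro x hx
    obtain ⟨e1, e2, e3, e4, e5⟩ := basic x hx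
    have h5 := (hdge x hx).1
    have h6 : 18 * (ε * ‖x‖ ^ (d - 1)) ≤ ‖p.derivative.eval x‖ - 1 := by
      linarith [norm_nonneg a]
    have h7 : ‖a‖ / (18 * ε) ≤ K := by
      have : 0 ≤ (10 * (d : ℝ) + 2) * ε / ‖a‖ := by positivity
      linarith
    calc ‖a‖ * ‖x‖ ^ (d - 1) = (‖a‖ / (18 * ε)) * (18 * (ε * ‖x‖ ^ (d - 1))) := by
          field_simp
      _ ≤ Real.exp (d + |Real.log ‖c‖| + Real.log (1 + K)) * (‖p.derivative.eval x‖ - 1) := by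
          gcongr
          exact h7.trans hexpC
  · intro x hx
    obtain ⟨e1, e2, e3, e4, e5⟩ := basic x hx
    have h5 := (hdge x hx).2
    have h6 : ‖p.derivative.eval x‖ + 1 ≤ (10 * d + 2) * (ε * ‖x‖ ^ (d - 1)) := by
      nlinarith [norm_nonneg a]
    have h7 : (10 * (d : ℝ) + 2) * ε / ‖a‖ ≤ K := by
      have : 0 ≤ ‖a‖ / (18 * ε) := by positivity
      linarith
    calc ‖p.derivative.eval x‖ + 1 ≤ (10 * d + 2) * (ε * ‖x‖ ^ (d - 1)) := h6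
      _ = ((10 * d + 2) * ε / ‖a‖) * (‖a‖ * ‖x‖ ^ (d - 1)) := by field_simp
      _ ≤ Real.exp (d + |Real.log ‖c‖| + Real.log (1 + K)) * (‖a‖ * ‖x‖ ^ (d - 1)) := by
          gcongr
          exact h7.trans hexpC

theorem exists_good_fin {m : ℕ} (p : Fin m → ℂ[X]) (a : Fin m → ℂ)
    (hd : ∀ i, 2 ≤ (p i).natDegree) (ha : ∀ i, a i ≠ 0) :
    ∃ R C : ℝ, ∀ i, Good1 (p i) (a i) R C := by
  choose R C h using fun i => exists_good1 (hd i) (ha i)
  refine ⟨∑ i, |R i|, ∑ i, |C i|, fun i => (h i).mono ?_ ?_⟩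
  · exact (le_abs_self _).trans
      (Finset.single_le_sum (f := fun i => |R i|) (fun i _ => abs_nonneg _) (Finset.mem_univ i))
  · exact (le_abs_self _).trans
      (Finset.single_le_sum (f := fun i => |C i|) (fun i _ => abs_nonneg _) (Finset.mem_univ i))

end Pool.Agent.H701R2.Fol
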