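import Pool.Agent.H701R2.FolC

set_option autoImplicit false

open Metric Set Filter Topology Polynomial

namespace Pool.Agent.H701R2.Fol

structure GoodSeq (P : ℕ → ℂ[X]) (b : ℕ → ℂ) (R C : ℝ) : Prop where
  good : ∀ j, Good1 (P j) (b j) R C
  bdd : ∀ R1 : ℝ, ∃ Λ : ℝ, ∀ j, ∀ x y : ℂ, ‖x‖ ≤ R1 → ‖y‖ ≤ R1 →
    ‖(P j).eval x - b j * y‖ ≤ Λ ∧ ‖(P j).derivative.eval x‖ + ‖b j‖ ≤ Λ

/-- Coordinates along the orbit. -/
noncomputable def Xs (P : ℕ → ℂ[X]) (b : ℕ → ℂ) : ℕ → ℂ × ℂ → ℂ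
  | 0, z => z.2
  | 1, z => z.1
  | (n + 2), z => (P n).eval (Xs P b (n + 1) z) - b n * Xs P b n z

theorem Xs_succ_succ (P : ℕ → ℂ[X]) (b : ℕ → ℂ) (n : ℕ) (z : ℂ × ℂ) :
    Xs P b (n + 2) z = (P n).eval (Xs P b (n + 1) z) - b n * Xs P b n z := rfl

theorem Xs_continuous (P : ℕ → ℂ[X]) (b : ℕ → ℂ) (n : ℕ) : Continuous (Xs P b n) := by
  induction n using Nat.strong_induction_on with
  | _ n ih =>
    match n, ih with
    | 0, _ => exact continuous_snd
    | 1, _ => exact continuous_fst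
    | n + 2, ih =>
      have h1 := ih (n + 1) (by omega)
      have h2 := ih n (by omega)
      exact ((P n).continuous.comp h1).sub (continuous_const.mul h2)

noncomputable def Dg (P : ℕ → ℂ[X]) (n : ℕ) : ℝ := ∏ i ∈ Finset.range n, ((P i).natDegree : ℝ)

noncomputable def Ms (P : ℕ → ℂ[X]) (b : ℕ → ℂ) (R : ℝ) (n : ℕ) (z : ℂ × ℂ) : ℝ :=
  max (max ‖Xs P b (n + 1) z‖ ‖Xs P b n z‖) R

def Vs (P : ℕ → ℂ[X]) (b : ℕ → ℂ) (R : ℝ) (n : ℕ) (z : ℂ × ℂ) : Prop :=
  R ≤ ‖Xs P b (n + 1) z‖ ∧ ‖Xs P b n z‖ ≤ ‖Xs P b (n + 1) z‖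

noncomputable def Gf (P : ℕ → ℂ[X]) (b : ℕ → ℂ) (R : ℝ) (z : ℂ × ℂ) : ℝ :=
  limUnder atTop (fun n : ℕ => Real.log (Ms P b R n z) / Dg P n)

section

variable {P : ℕ → ℂ[X]} {b : ℕ → ℂ} {R C : ℝ}

theorem Dg_succ (n : ℕ) : Dg P (n + 1) = (P n).natDegree * Dg P n := by
  rw [Dg, Finset.prod_range_succ, mul_comm]; rfl

theorem Dg_ge (H : GoodSeq P b R C) (n : ℕ) : (2 : ℝ) ^ n ≤ Dg P n := by
  induction n with
  | zero => simp [Dg]
  | succ n ih =>
    rw [Dg_succ, pow_succ, mul_comm]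
    have h2 : (2 : ℝ) ≤ (P n).natDegree := by exact_mod_cast (H.good n).deg
    exact mul_le_mul h2 ih (by positivity) (by positivity)

theorem Dg_pos (H : GoodSeq P b R C) (n : ℕ) : 0 < Dg P n :=
  lt_of_lt_of_le (by positivity) (Dg_ge H n)

theorem Dg_add (H : GoodSeq P b R C) (n k : ℕ) : Dg P n * 2 ^ k ≤ Dg P (n + k) := by
  induction k with
  | zero => simp
  | succ k ih =>
    rw [← add_assoc, Dg_succ, pow_succ, ← mul_assoc, mul_comm]
    have h2 : (2 : ℝ) ≤ (P (n + k)).natDegree := by exact_mod_cast (H.good (n + k)).deg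
    have := Dg_pos H n
    exact mul_le_mul h2 ih (by positivity) (by positivity)

theorem Dg_mono (H : GoodSeq P b R C) {n k : ℕ} (h : n ≤ k) : Dg P n ≤ Dg P k := by
  obtain ⟨j, rfl⟩ := Nat.exists_eq_add_of_le h
  have h1 := Dg_add H n j
  have h2 := Dg_pos H n
  have h3 : (1 : ℝ) ≤ 2 ^ j := one_le_pow₀ (by norm_num)
  nlinarith

theorem Vs_dbl (H : GoodSeq P b R C) {n : ℕ} {z : ℂ × ℂ} (h : Vs P b R n z) :
    2 * ‖Xs P b (n + 1) z‖ ≤ ‖Xs P b (n + 2) z‖ := by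
  rw [Xs_succ_succ]
  exact (H.good n).dbl _ _ h.1 h.2

theorem Vs_succ (H : GoodSeq P b R C) {n : ℕ} {z : ℂ × ℂ} (h : Vs P b R n z) :
    Vs P b R (n + 1) z := by
  have h1 := Vs_dbl H h
  have h2 := h.1
  have h3 := norm_nonneg (Xs P b (n + 1) z)
  exact ⟨by linarith, by linarith⟩

theorem Vs_mono (H : GoodSeq P b R C) {n k : ℕ} (hnk : n ≤ k) {z : ℂ × ℂ} (h : Vs P b R n z) :
    Vs P b R k z := by
  induction k, hnk using Nat.le_induction with
  | base => exact h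
  | succ k _ ih => exact Vs_succ H ih

theorem Vs_growth (H : GoodSeq P b R C) {n : ℕ} {z : ℂ × ℂ} (h : Vs P b R n z) (k : ℕ) :
    2 ^ k * ‖Xs P b (n + 1) z‖ ≤ ‖Xs P b (n + k + 1) z‖ := by
  induction k with
  | zero => simp
  | succ k ih =>
    have h1 := Vs_dbl H (Vs_mono H (Nat.le_add_right n k) h)
    have e : n + (k + 1) + 1 = n + k + 2 := by ring
    rw [e]
    calc 2 ^ (k + 1) * ‖Xs P b (n + 1) z‖ = 2 * (2 ^ k * ‖Xs P b (n + 1) z‖) := by ring
      _ ≤ 2 * ‖Xs P b (n + k + 1) z‖ := by gcongr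
      _ ≤ _ := h1

theorem not_Vs_bound (H : GoodSeq P b R C) {R1 : ℝ} (hR1 : R ≤ R1) {z : ℂ × ℂ}
    (hz : ‖Xs P b 0 z‖ ≤ R1) {n : ℕ} (h : ¬ Vs P b R n z) :
    ∀ k ≤ n + 1, ‖Xs P b k z‖ ≤ R1 := by
  intro k
  induction k with
  | zero => intro _; exact hz
  | succ k ih =>
    intro hk
    have h1 := ih (by omega)
    have h2 : ¬ Vs P b R k z := fun hv => h (Vs_mono H (by omega) hv)
    rw [Vs, not_and_or] at h2
    rcases h2 with h2 | h2
    · push Not at h2; linarith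
    · push Not at h2; linarith

theorem abs_log_norm_le {w : ℂ} (h : ‖w - 1‖ ≤ 1 / 2) : |Real.log ‖w‖| ≤ 1 := by
  have h1 : ‖(1 : ℂ)‖ - ‖w‖ ≤ ‖w - 1‖ := by rw [norm_sub_rev]; exact norm_sub_norm_le _ _
  have h2 : ‖w‖ - ‖(1 : ℂ)‖ ≤ ‖w - 1‖ := norm_sub_norm_le _ _
  rw [norm_one] at h1 h2
  have hpos : 0 < ‖w‖ := by linarith
  have h3 := Real.log_le_sub_one_of_pos hpos
  have h4 := Real.log_le_sub_one_of_pos (inv_pos.2 hpos)
  rw [Real.log_inv] at h4
  have h5 : ‖w‖⁻¹ ≤ 2 := by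
    rw [inv_le_comm₀ hpos (by norm_num)]; linarith
  rw [abs_le]
  constructor <;> linarith

theorem logX_step (H : GoodSeq P b R C) {n : ℕ} {z : ℂ × ℂ} (h : Vs P b R n z) :
    |Real.log ‖Xs P b (n + 2) z‖ - (P n).natDegree * Real.log ‖Xs P b (n + 1) z‖| ≤ C + 1 := by
  have h1 := (H.good n).near _ _ h.1 h.2
  rw [← Xs_succ_succ] at h1
  have h2 := abs_log_norm_le h1
  have hR := (H.good n).hR
  have hx : 0 < ‖Xs P b (n + 1) z‖ := by linarith [h.1]
  have hx2 : 0 < ‖Xs P b (n + 2) z‖ := by linarith [Vs_dbl H h]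
  have hc0 : (P n).leadingCoeff ≠ 0 := by
    intro h0
    rw [leadingCoeff_eq_zero] at h0
    have := (H.good n).deg
    rw [h0] at this; simp at this
  have hc : 0 < ‖(P n).leadingCoeff‖ := norm_pos_iff.2 hc0
  rw [norm_div, norm_mul, norm_pow, Real.log_div hx2.ne' (by positivity),
    Real.log_mul hc.ne' (by positivity), Real.log_pow] at h2
  have h3 := (H.good n).lc
  have h4 : Real.log ‖Xs P b (n + 2) z‖ - (P n).natDegree * Real.log ‖Xs P b (n + 1) z‖
      = (Real.log ‖Xs P b (n + 2) z‖ - (Real.log ‖(P n).leadingCoeff‖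
        + (P n).natDegree * Real.log ‖Xs P b (n + 1) z‖)) + Real.log ‖(P n).leadingCoeff‖ := by
    ring
  rw [h4]
  refine (abs_add_le _ _).trans ?_
  linarith

theorem Ms_of_Vs {n : ℕ} {z : ℂ × ℂ} (h : Vs P b R n z) :
    Ms P b R n z = ‖Xs P b (n + 1) z‖ := by
  rw [Ms, max_eq_left h.2, max_eq_left h.1]

theorem one_le_Ms (H : GoodSeq P b R C) (n : ℕ) (z : ℂ × ℂ) : 1 ≤ Ms P b R n z :=
  (H.good 0).hR.trans (le_max_right _ _)

theorem log_Ms_nonneg (H : GoodSeq P b R C) (n : ℕ) (z : ℂ × ℂ) : 0 ≤ Real.log (Ms P b R n z) :=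
  Real.log_nonneg (one_le_Ms H n z)

theorem not_Vs_Ms (H : GoodSeq P b R C) {R1 : ℝ} (hR1 : R ≤ R1) {z : ℂ × ℂ}
    (hz : ‖Xs P b 0 z‖ ≤ R1) {n : ℕ} (h : ¬ Vs P b R n z) : Ms P b R n z ≤ R1 := by
  have h1 := not_Vs_bound H hR1 hz h
  exact max_le (max_le (h1 (n + 1) le_rfl) (h1 n (by omega))) hR1

theorem logM_step (H : GoodSeq P b R C) {R1 : ℝ} (hR1 : R ≤ R1) :
    ∃ C1 : ℝ, 0 ≤ C1 ∧ ∀ z : ℂ × ℂ, ‖Xs P b 0 z‖ ≤ R1 → ∀ n : ℕ,
      |Real.log (Ms P b R (n + 1) z) - (P n).natDegree * Real.log (Ms P b R n z)| ≤ C1 := by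
  obtain ⟨Λ, hΛ⟩ := H.bdd R1
  have hR := (H.good 0).hR
  have hC := (H.good 0).hC
  have hlog : 0 ≤ Real.log R1 := Real.log_nonneg (by linarith)
  have hlog2 : 0 ≤ Real.log (|Λ| + R1) := Real.log_nonneg (by linarith [abs_nonneg Λ])
  refine ⟨(C + 1) + (C * Real.log R1 + Real.log (|Λ| + R1)), by positivity, ?_⟩
  intro z hz n
  by_cases hV : Vs P b R n z
  · rw [Ms_of_Vs hV, Ms_of_Vs (Vs_succ H hV)]
    have h1 := logX_step H hV
    have : 0 ≤ C * Real.log R1 + Real.log (|Λ| + R1) := by positivity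
    exact h1.trans (by linarith)
  · have h1 := not_Vs_bound H hR1 hz hV
    have h2 := not_Vs_Ms H hR1 hz hV
    have h3 : Ms P b R (n + 1) z ≤ |Λ| + R1 := by
      rw [Ms]
      refine max_le (max_le ?_ ?_) ?_
      · have := (hΛ n _ _ (h1 (n + 1) le_rfl) (h1 n (by omega))).1
        rw [← Xs_succ_succ] at this
        have := le_abs_self Λ
        show ‖Xs P b (n + 2) z‖ ≤ _
        linarith
      · have := h1 (n + 1) le_rfl
        linarith [abs_nonneg Λ]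
      · linarith [abs_nonneg Λ]
    have h4 := one_le_Ms H n z
    have h5 := one_le_Ms H (n + 1) z
    have h6 : Real.log (Ms P b R n z) ≤ Real.log R1 := Real.log_le_log (by linarith) h2
    have h7 : Real.log (Ms P b R (n + 1) z) ≤ Real.log (|Λ| + R1) :=
      Real.log_le_log (by linarith) h3
    have h8 := log_Ms_nonneg H n z
    have h9 := log_Ms_nonneg H (n + 1) z
    have h10 : (P n).natDegree * Real.log (Ms P b R n z) ≤ C * Real.log R1 :=
      mul_le_mul (H.good n).degle h6 h8 hC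
    have h11 : 0 ≤ (P n).natDegree * Real.log (Ms P b R n z) := by positivity
    rw [abs_le]
    constructor <;> linarith

theorem Gf_spec (H : GoodSeq P b R C) {R1 : ℝ} (hR1 : R ≤ R1) :
    ∃ C1 : ℝ, 0 ≤ C1 ∧ ∀ z : ℂ × ℂ, ‖Xs P b 0 z‖ ≤ R1 →
      Tendsto (fun n : ℕ => Real.log (Ms P b R n z) / Dg P n) atTop (𝓝 (Gf P b R z)) ∧
      ∀ n : ℕ, |Real.log (Ms P b R n z) - Dg P n * Gf P b R z| ≤ C1 := by
  obtain ⟨C1, hC1, hstep⟩ := logM_step H hR1
  refine ⟨C1, hC1, fun z hz => ?_⟩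
  set f : ℕ → ℝ := fun n => Real.log (Ms P b R n z) / Dg P n with hf
  have hdist : ∀ n, dist (f n) (f (n + 1)) ≤ C1 / Dg P (n + 1) := by
    intro n
    rw [dist_comm, Real.dist_eq]
    have hD := Dg_pos H n
    have hD1 := Dg_pos H (n + 1)
    have h2 : (0 : ℝ) < (P n).natDegree := by
      have := (H.good n).deg
      exact_mod_cast (by omega : 0 < (P n).natDegree)
    have : f (n + 1) - f n = (Real.log (Ms P b R (n + 1) z)
        - (P n).natDegree * Real.log (Ms P b R n z)) / Dg P (n + 1) := by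
      rw [hf]; simp only
      rw [Dg_succ]
      field_simp
    rw [this, abs_div, abs_of_pos hD1]
    gcongr
    exact hstep z hz n
  have hdist2 : ∀ n k, dist (f (n + k)) (f (n + (k + 1))) ≤ (C1 / (2 * Dg P n)) * (1 / 2) ^ k := by
    intro n k
    refine (hdist (n + k)).trans ?_
    have h1 := Dg_add H n (k + 1)
    have hD := Dg_pos H n
    rw [← add_assoc] at h1
    calc C1 / Dg P (n + k + 1) ≤ C1 / (Dg P n * 2 ^ (k + 1)) := by gcongr
      _ = _ := by rw [pow_succ, one_div, inv_pow]; field_simp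
  have hcau : CauchySeq f := by
    refine cauchySeq_of_le_geometric (1 / 2) (C1 / (2 * Dg P 0)) (by norm_num) ?_
    intro n
    have := hdist2 0 n
    simpa using this
  have hlim : Tendsto f atTop (𝓝 (Gf P b R z)) := by
    obtain ⟨l, hl⟩ := cauchySeq_tendsto_of_complete hcau
    have : Gf P b R z = l := hl.limUnder_eq
    rw [this]; exact hl
  refine ⟨hlim, fun n => ?_⟩
  have hlim' : Tendsto (fun k => f (n + k)) atTop (𝓝 (Gf P b R z)) := by
    have := (tendsto_add_atTop_iff_nat n).2 hlim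
    simpa [add_comm] using this
  have h1 := dist_le_of_le_geometric_of_tendsto₀ (1 / 2) (C1 / (2 * Dg P n)) (by norm_num)
    (hdist2 n) hlim'
  have hD := Dg_pos H n
  have h2 : C1 / (2 * Dg P n) / (1 - 1 / 2) = C1 / Dg P n := by field_simp; norm_num
  rw [h2, Real.dist_eq, add_zero] at h1
  have h3 : Real.log (Ms P b R n z) - Dg P n * Gf P b R z = Dg P n * (f n - Gf P b R z) := by
    rw [hf]; simp only; field_simp
  rw [h3, abs_mul, abs_of_pos hD]
  rw [le_div_iff₀ hD] at h1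
  linarith

theorem Gf_nonneg (H : GoodSeq P b R C) (z : ℂ × ℂ) : 0 ≤ Gf P b R z := by
  obtain ⟨C1, hC1, h⟩ := Gf_spec H (le_max_left R ‖Xs P b 0 z‖)
  refine ge_of_tendsto' (h z (le_max_right _ _)).1 fun n => ?_
  exact div_nonneg (log_Ms_nonneg H n z) (Dg_pos H n).le

theorem Gf_pos_of_Vs (H : GoodSeq P b R C) {z : ℂ × ℂ} {n : ℕ} (hV : Vs P b R n z) :
    0 < Gf P b R z := by
  obtain ⟨C1, hC1, h⟩ := Gf_spec H (le_max_left R ‖Xs P b 0 z‖)
  have h1 := (h z (le_max_right _ _)).2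
  have hR := (H.good 0).hR
  have htend : Tendsto (fun k : ℕ => (2 : ℝ) ^ k) atTop atTop :=
    tendsto_pow_atTop_atTop_of_one_lt (by norm_num)
  obtain ⟨k, hk⟩ := (htend.eventually_gt_atTop (Real.exp (C1 + 1))).exists
  have h2 := Vs_growth H hV k
  have h3 : Real.exp (C1 + 1) ≤ ‖Xs P b (n + k + 1) z‖ := by
    have : (2 : ℝ) ^ k * 1 ≤ 2 ^ k * ‖Xs P b (n + 1) z‖ := by
      gcongr; linarith [hV.1]
    linarith
  have h4 := h1 (n + k)
  rw [Ms_of_Vs (Vs_mono H (Nat.le_add_right n k) hV)] at h4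
  have h5 : C1 + 1 ≤ Real.log ‖Xs P b (n + k + 1) z‖ := by
    rw [Real.le_log_iff_exp_le (lt_of_lt_of_le (Real.exp_pos _) h3)]
    exact h3
  have h6 := (abs_le.1 h4).2
  have h7 : 0 < Dg P (n + k) * Gf P b R z := by linarith
  exact (pos_iff_pos_of_mul_pos h7).1 (Dg_pos H _)

theorem Gf_eq_zero (H : GoodSeq P b R C) {z : ℂ × ℂ} (hV : ∀ n, ¬ Vs P b R n z) :
    Gf P b R z = 0 := by
  obtain ⟨C1, hC1, h⟩ := Gf_spec H (le_max_left R ‖Xs P b 0 z‖)
  have h1 := (h z (le_max_right _ _)).2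
  refine le_antisymm ?_ (Gf_nonneg H z)
  set R1 := max R ‖Xs P b 0 z‖
  have hR := (H.good 0).hR
  have hR1 : 1 ≤ R1 := hR.trans (le_max_left _ _)
  have hb : ∀ n : ℕ, Gf P b R z ≤ (Real.log R1 + C1) * (1 / 2) ^ n := by
    intro n
    have h2 := not_Vs_Ms H (le_max_left R ‖Xs P b 0 z‖) (le_max_right _ _) (hV n)
    have h3 : Real.log (Ms P b R n z) ≤ Real.log R1 :=
      Real.log_le_log (by linarith [one_le_Ms H n z]) h2
    have h4 := (abs_le.1 (h1 n)).1
    have h5 : Dg P n * Gf P b R z ≤ Real.log R1 + C1 := by linarith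
    have h6 := Dg_ge H n
    have h7 : 2 ^ n * Gf P b R z ≤ Real.log R1 + C1 :=
      (mul_le_mul_of_nonneg_right h6 (Gf_nonneg H z)).trans h5
    rw [one_div, inv_pow, ← div_eq_mul_inv, le_div_iff₀ (by positivity)]
    linarith
  have hlim : Tendsto (fun n : ℕ => (Real.log R1 + C1) * (1 / 2 : ℝ) ^ n) atTop (𝓝 0) := by
    have := (tendsto_pow_atTop_nhds_zero_of_lt_one (r := (1 / 2 : ℝ)) (by norm_num)
      (by norm_num)).const_mul (Real.log R1 + C1)
    simpa using this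
  exact ge_of_tendsto' hlim hb

theorem Gf_pos_iff (H : GoodSeq P b R C) {z : ℂ × ℂ} :
    0 < Gf P b R z ↔ ∃ n, Vs P b R n z := by
  constructor
  · intro h
    by_contra hc
    push Not at hc
    rw [Gf_eq_zero H hc] at h
    exact lt_irrefl _ h
  · rintro ⟨n, hn⟩
    exact Gf_pos_of_Vs H hn

theorem Ms_continuous (n : ℕ) : Continuous (Ms P b R n) :=
  (((Xs_continuous P b (n + 1)).norm).max ((Xs_continuous P b n).norm)).max continuous_const

theorem Gf_continuous (H : GoodSeq P b R C) : Continuous (Gf P b R) := by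
  rw [continuous_iff_continuousAt]
  intro z0
  set R1 := max R (‖z0.2‖ + 1) with hR1
  obtain ⟨C1, hC1, h⟩ := Gf_spec H (le_max_left R (‖z0.2‖ + 1))
  set S : Set (ℂ × ℂ) := {z | ‖z.2‖ ≤ R1} with hS
  have hSn : S ∈ 𝓝 z0 := by
    have h1 : ∀ᶠ z : ℂ × ℂ in 𝓝 z0, ‖z.2‖ < R1 := by
      refine (continuous_snd.norm).continuousAt.eventually_lt_const ?_
      exact lt_of_lt_of_le (by linarith) (le_max_right _ _)
    filter_upwards [h1] with z hz using hz.le
  have huni : TendstoUniformlyOn (fun (n : ℕ) z => Real.log (Ms P b R n z) / Dg P n)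
      (Gf P b R) atTop S := by
    rw [Metric.tendstoUniformlyOn_iff]
    intro ε hε
    have hlim : Tendsto (fun n : ℕ => C1 * (1 / 2 : ℝ) ^ n) atTop (𝓝 0) := by
      have := (tendsto_pow_atTop_nhds_zero_of_lt_one (r := (1 / 2 : ℝ)) (by norm_num)
        (by norm_num)).const_mul C1
      simpa using this
    filter_upwards [hlim.eventually_lt_const hε] with n hn z hz
    have h1 := (h z hz).2 n
    have hD := Dg_pos H n
    rw [dist_comm, Real.dist_eq]
    have h3 : Real.log (Ms P b R n z) / Dg P n - Gf P b R z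
        = (Real.log (Ms P b R n z) - Dg P n * Gf P b R z) / Dg P n := by field_simp
    rw [h3, abs_div, abs_of_pos hD]
    refine lt_of_le_of_lt ?_ hn
    rw [one_div, inv_pow, ← div_eq_mul_inv]
    exact div_le_div₀ hC1 h1 (by positivity) (Dg_ge H n)
  have hcont : ContinuousOn (Gf P b R) S := by
    refine huni.continuousOn (Frequently.of_forall fun n => ?_)
    refine ContinuousOn.div_const ?_ _
    refine ContinuousOn.log (Ms_continuous n).continuousOn ?_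
    intro z _
    linarith [one_le_Ms H n z]
  exact hcont.continuousAt hSn

end

end Pool.Agent.H701R2.Fol
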