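import Pool.Agent.H701R2.FolD

set_option autoImplicit false

open Metric Set Filter Topology Polynomial

namespace Pool.Agent.H701R2.Fol

section

variable {P : ℕ → ℂ[X]} {b : ℕ → ℂ} {R C : ℝ}

/-- the linearised recursion -/
def LinRec (P : ℕ → ℂ[X]) (b : ℕ → ℂ) (z : ℂ × ℂ) (ξ : ℕ → ℂ) : Prop :=
  ∀ n, ξ (n + 2) = (P n).derivative.eval (Xs P b (n + 1) z) * ξ (n + 1) - b n * ξ n

theorem LinRec.ne (H : GoodSeq P b R C) {z : ℂ × ℂ} {ξ : ℕ → ℂ} (hξ : LinRec P b z ξ)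
    (h0 : ¬ (ξ 1 = 0 ∧ ξ 0 = 0)) (n : ℕ) : ¬ (ξ (n + 1) = 0 ∧ ξ n = 0) := by
  induction n with
  | zero => exact h0
  | succ n ih =>
    rintro ⟨h1, h2⟩
    apply ih
    refine ⟨h2, ?_⟩
    have h3 := hξ n
    rw [show n + 1 + 1 = n + 2 from rfl] at h1
    rw [h1, h2, mul_zero, zero_sub] at h3
    have h4 : b n * ξ n = 0 := by
      have := congrArg Neg.neg h3
      simpa using this.symm
    rcases mul_eq_zero.1 h4 with h5 | h5
    · exact absurd h5 (H.good n).ha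
    · exact h5

theorem LinRec.decr (H : GoodSeq P b R C) {z : ℂ × ℂ} {ξ : ℕ → ℂ} (hξ : LinRec P b z ξ)
    (h0 : ¬ (ξ 1 = 0 ∧ ξ 0 = 0)) {N : ℕ} (hV : Vs P b R N z) {B : ℝ} {N' : ℕ}
    (hB : ∀ n ≥ N', ‖ξ (n + 1)‖ ≤ B * ‖Xs P b (n + 1) z‖) :
    ∀ n ≥ N, ‖ξ (n + 1)‖ < ‖ξ n‖ := by
  intro n hn
  by_contra hcon
  push Not at hcon
  have hRpos : 0 < R := by linarith [(H.good 0).hR]
  have hVn : ∀ k, Vs P b R (n + k) z := fun k => Vs_mono H (by omega) hV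
  have hX : ∀ k, 0 < ‖Xs P b (n + k + 1) z‖ := fun k => lt_of_lt_of_le hRpos (hVn k).1
  have hξ1 : 0 < ‖ξ (n + 1)‖ := by
    rw [norm_pos_iff]
    intro h
    apply hξ.ne H h0 n
    refine ⟨h, ?_⟩
    rw [h, norm_zero] at hcon
    exact norm_le_zero_iff.1 hcon
  set κ := ‖ξ (n + 1)‖ / ‖Xs P b (n + 1) z‖ with hκ
  have hκpos : 0 < κ := div_pos hξ1 (hX 0)
  have claim : ∀ k : ℕ, ‖ξ (n + k)‖ ≤ ‖ξ (n + k + 1)‖ ∧
      (3 / 2) ^ k * κ * ‖Xs P b (n + k + 1) z‖ ≤ ‖ξ (n + k + 1)‖ := by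
    intro k
    induction k with
    | zero =>
      refine ⟨hcon, ?_⟩
      have : ‖Xs P b (n + 1) z‖ ≠ 0 := (hX 0).ne'
      rw [pow_zero, one_mul, hκ, add_zero, div_mul_cancel₀ _ this]
    | succ k ih =>
      obtain ⟨ih1, ih2⟩ := ih
      have e1 : n + (k + 1) = n + k + 1 := by ring
      have e2 : n + (k + 1) + 1 = n + k + 2 := by ring
      rw [e2, e1]
      have hg := H.good (n + k)
      have hd1 := hg.dge _ (hVn k).1
      have hd2 := hg.dgrow _ _ (hVn k).1 (hVn k).2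
      rw [← Xs_succ_succ] at hd2
      have h3 : (‖(P (n + k)).derivative.eval (Xs P b (n + k + 1) z)‖ - ‖b (n + k)‖)
          * ‖ξ (n + k + 1)‖ ≤ ‖ξ (n + k + 2)‖ := by
        rw [hξ (n + k)]
        have h4 := norm_sub_norm_le
          ((P (n + k)).derivative.eval (Xs P b (n + k + 1) z) * ξ (n + k + 1))
          (b (n + k) * ξ (n + k))
        rw [norm_mul, norm_mul] at h4
        have h5 : ‖b (n + k)‖ * ‖ξ (n + k)‖ ≤ ‖b (n + k)‖ * ‖ξ (n + k + 1)‖ := by gcongr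
        nlinarith
      constructor
      · have : 1 * ‖ξ (n + k + 1)‖ ≤
            (‖(P (n + k)).derivative.eval (Xs P b (n + k + 1) z)‖ - ‖b (n + k)‖)
              * ‖ξ (n + k + 1)‖ := by
          gcongr; linarith
        linarith
      · calc (3 / 2 : ℝ) ^ (k + 1) * κ * ‖Xs P b (n + k + 2) z‖
            = (3 / 2) ^ k * κ * (3 / 2 * ‖Xs P b (n + k + 2) z‖) := by ring
          _ ≤ (3 / 2) ^ k * κ *
              ((‖(P (n + k)).derivative.eval (Xs P b (n + k + 1) z)‖ - ‖b (n + k)‖)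
                * ‖Xs P b (n + k + 1) z‖) := by gcongr
          _ = (‖(P (n + k)).derivative.eval (Xs P b (n + k + 1) z)‖ - ‖b (n + k)‖)
              * ((3 / 2) ^ k * κ * ‖Xs P b (n + k + 1) z‖) := by ring
          _ ≤ (‖(P (n + k)).derivative.eval (Xs P b (n + k + 1) z)‖ - ‖b (n + k)‖)
              * ‖ξ (n + k + 1)‖ := by
              refine mul_le_mul_of_nonneg_left ih2 ?_
              linarith
          _ ≤ _ := h3
  have hb : ∀ k ≥ N', (3 / 2 : ℝ) ^ k * κ ≤ B := by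
    intro k hk
    have h1 := (claim k).2
    have h2 := hB (n + k) (by omega)
    exact le_of_mul_le_mul_right (h1.trans h2) (hX k)
  have htend : Tendsto (fun k : ℕ => (3 / 2 : ℝ) ^ k * κ) atTop atTop :=
    (tendsto_pow_atTop_atTop_of_one_lt (by norm_num)).atTop_mul_const hκpos
  obtain ⟨k, hk1, hk2⟩ := ((htend.eventually_gt_atTop B).and (eventually_ge_atTop N')).exists
  exact absurd (hb k hk2) (not_le.2 hk1)

/-- one-step comparison. -/
theorem LinRec.step (H : GoodSeq P b R C) {z : ℂ × ℂ} {ξ : ℕ → ℂ} (hξ : LinRec P b z ξ)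
    {n : ℕ} (hV : Vs P b R n z) (hd : ‖ξ (n + 2)‖ ≤ ‖ξ (n + 1)‖) :
    ‖Xs P b (n + 1) z‖ ^ ((P n).natDegree - 1) * ‖ξ (n + 1)‖ ≤ Real.exp C * ‖ξ n‖ ∧
    ‖ξ n‖ ≤ Real.exp C * (‖Xs P b (n + 1) z‖ ^ ((P n).natDegree - 1) * ‖ξ (n + 1)‖) := by
  have hg := H.good n
  have hbpos : 0 < ‖b n‖ := norm_pos_iff.2 hg.ha
  set D := (P n).derivative.eval (Xs P b (n + 1) z) with hD
  have h0 : b n * ξ n = D * ξ (n + 1) - ξ (n + 2) := by rw [hξ n]; ring
  have h1 : (‖D‖ - 1) * ‖ξ (n + 1)‖ ≤ ‖b n‖ * ‖ξ n‖ := by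
    rw [← norm_mul, h0]
    have := norm_sub_norm_le (D * ξ (n + 1)) (ξ (n + 2))
    rw [norm_mul] at this
    linarith
  have h2 : ‖b n‖ * ‖ξ n‖ ≤ (‖D‖ + 1) * ‖ξ (n + 1)‖ := by
    rw [← norm_mul, h0]
    have := norm_sub_le (D * ξ (n + 1)) (ξ (n + 2))
    rw [norm_mul] at this
    linarith
  have h3 := hg.dup _ hV.1
  have h4 := hg.dlo _ hV.1
  constructor
  · refine le_of_mul_le_mul_left ?_ hbpos
    calc ‖b n‖ * (‖Xs P b (n + 1) z‖ ^ ((P n).natDegree - 1) * ‖ξ (n + 1)‖)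
        = (‖b n‖ * ‖Xs P b (n + 1) z‖ ^ ((P n).natDegree - 1)) * ‖ξ (n + 1)‖ := by ring
      _ ≤ (Real.exp C * (‖D‖ - 1)) * ‖ξ (n + 1)‖ := by gcongr
      _ = Real.exp C * ((‖D‖ - 1) * ‖ξ (n + 1)‖) := by ring
      _ ≤ Real.exp C * (‖b n‖ * ‖ξ n‖) := by gcongr
      _ = _ := by ring
  · refine le_of_mul_le_mul_left ?_ hbpos
    calc ‖b n‖ * ‖ξ n‖ ≤ (‖D‖ + 1) * ‖ξ (n + 1)‖ := h2
      _ ≤ (Real.exp C * (‖b n‖ * ‖Xs P b (n + 1) z‖ ^ ((P n).natDegree - 1))) * ‖ξ (n + 1)‖ := by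
          gcongr
      _ = _ := by ring

/-- growth of `‖ξ n‖ exp (D_n G)`. -/
theorem LinRec.step2 (H : GoodSeq P b R C) {z : ℂ × ℂ} {ξ : ℕ → ℂ} (hξ : LinRec P b z ξ)
    {n : ℕ} (hV : Vs P b R n z) (hd : ‖ξ (n + 2)‖ ≤ ‖ξ (n + 1)‖) {C1 : ℝ}
    (hG : |Real.log (Ms P b R n z) - Dg P n * Gf P b R z| ≤ C1) :
    ‖ξ (n + 1)‖ * Real.exp (Dg P (n + 1) * Gf P b R z) ≤
      Real.exp (C + C * C1) * (‖ξ n‖ * Real.exp (Dg P n * Gf P b R z)) ∧
    ‖ξ n‖ * Real.exp (Dg P n * Gf P b R z) ≤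
      Real.exp (C + C * C1) * (‖ξ (n + 1)‖ * Real.exp (Dg P (n + 1) * Gf P b R z)) := by
  obtain ⟨s1, s2⟩ := hξ.step H hV hd
  have hg := H.good n
  rw [Ms_of_Vs hV] at hG
  have hxpos : 0 < ‖Xs P b (n + 1) z‖ := by linarith [hV.1, hg.hR]
  set d := (P n).natDegree with hdd
  set G := Gf P b R z
  set D := Dg P n with hD
  have hD1 : Dg P (n + 1) = d * D := Dg_succ n
  have hd1 : ((d - 1 : ℕ) : ℝ) = (d : ℝ) - 1 := by
    rw [Nat.cast_sub (by have := hg.deg; omega)]; simp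
  have hpow : ‖Xs P b (n + 1) z‖ ^ (d - 1) = Real.exp (((d : ℝ) - 1) * Real.log ‖Xs P b (n + 1) z‖) := by
    rw [← hd1, ← Real.log_pow, Real.exp_log (by positivity)]
  have hC1 : 0 ≤ C1 := (abs_nonneg _).trans hG
  have hdle : ((d : ℝ) - 1) ≤ C := by have := hg.degle; linarith
  have hd0 : 0 ≤ (d : ℝ) - 1 := by
    have : (2 : ℝ) ≤ d := by exact_mod_cast hg.deg
    linarith
  obtain ⟨g1, g2⟩ := abs_le.1 hG
  have k1 : ((d : ℝ) - 1) * (D * G) ≤ ((d : ℝ) - 1) * Real.log ‖Xs P b (n + 1) z‖ + C * C1 := by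
    have h5 : ((d : ℝ) - 1) * C1 ≤ C * C1 := by gcongr
    have h6 : ((d : ℝ) - 1) * (D * G) ≤ ((d : ℝ) - 1) * (Real.log ‖Xs P b (n + 1) z‖ + C1) := by
      gcongr; linarith
    nlinarith
  have k2 : ((d : ℝ) - 1) * Real.log ‖Xs P b (n + 1) z‖ ≤ ((d : ℝ) - 1) * (D * G) + C * C1 := by
    have h5 : ((d : ℝ) - 1) * C1 ≤ C * C1 := by gcongr
    have h6 : ((d : ℝ) - 1) * Real.log ‖Xs P b (n + 1) z‖ ≤ ((d : ℝ) - 1) * (D * G + C1) := by
      gcongr; linarith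
    nlinarith
  rw [hpow] at s1 s2
  constructor
  · calc ‖ξ (n + 1)‖ * Real.exp (Dg P (n + 1) * G)
        = ‖ξ (n + 1)‖ * (Real.exp (((d : ℝ) - 1) * (D * G)) * Real.exp (D * G)) := by
          rw [← Real.exp_add, hD1]; congr 2; ring
      _ ≤ ‖ξ (n + 1)‖ * (Real.exp (((d : ℝ) - 1) * Real.log ‖Xs P b (n + 1) z‖ + C * C1)
            * Real.exp (D * G)) := by gcongr
      _ = (Real.exp (((d : ℝ) - 1) * Real.log ‖Xs P b (n + 1) z‖) * ‖ξ (n + 1)‖)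
            * (Real.exp (C * C1) * Real.exp (D * G)) := by rw [Real.exp_add]; ring
      _ ≤ (Real.exp C * ‖ξ n‖) * (Real.exp (C * C1) * Real.exp (D * G)) := by gcongr
      _ = _ := by rw [Real.exp_add]; ring
  · calc ‖ξ n‖ * Real.exp (D * G)
        ≤ (Real.exp C * (Real.exp (((d : ℝ) - 1) * Real.log ‖Xs P b (n + 1) z‖) * ‖ξ (n + 1)‖))
            * Real.exp (D * G) := by gcongr
      _ ≤ (Real.exp C * (Real.exp (((d : ℝ) - 1) * (D * G) + C * C1) * ‖ξ (n + 1)‖))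
            * Real.exp (D * G) := by gcongr
      _ = (Real.exp C * Real.exp (C * C1)) * (‖ξ (n + 1)‖ *
            (Real.exp (((d : ℝ) - 1) * (D * G)) * Real.exp (D * G))) := by
          rw [Real.exp_add]; ring
      _ = _ := by
          rw [← Real.exp_add, ← Real.exp_add, hD1]
          congr 3; ring

/-- bound of `ξ` as long as the orbit has not escaped. -/
theorem LinRec.early (H : GoodSeq P b R C) {R1 Λ Ξ : ℝ} (hR1 : R ≤ R1) (hΛ1 : 1 ≤ Λ)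
    (hΛ : ∀ j, ∀ x y : ℂ, ‖x‖ ≤ R1 → ‖y‖ ≤ R1 →
      ‖(P j).eval x - b j * y‖ ≤ Λ ∧ ‖(P j).derivative.eval x‖ + ‖b j‖ ≤ Λ)
    {z : ℂ × ℂ} (hz : ‖Xs P b 0 z‖ ≤ R1) {ξ : ℕ → ℂ} (hξ : LinRec P b z ξ)
    (h0 : ‖ξ 0‖ ≤ Ξ) (h1 : ‖ξ 1‖ ≤ Ξ) {n : ℕ} (hV : ∀ k < n, ¬ Vs P b R k z) :
    ‖ξ (n + 1)‖ ≤ Λ ^ n * Ξ ∧ ‖ξ n‖ ≤ Λ ^ n * Ξ := by
  have hΞ : 0 ≤ Ξ := (norm_nonneg _).trans h0
  induction n with
  | zero => simpa using ⟨h1, h0⟩
  | succ n ih =>
    obtain ⟨i1, i2⟩ := ih fun k hk => hV k (by omega)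
    have hb := not_Vs_bound H hR1 hz (hV n (by omega))
    have h2 := (hΛ n _ _ (hb (n + 1) le_rfl) (hb n (by omega))).2
    have h3 : Λ ^ n * Ξ ≤ Λ ^ (n + 1) * Ξ :=
      mul_le_mul_of_nonneg_right (pow_le_pow_right₀ hΛ1 (by omega)) hΞ
    refine ⟨?_, i1.trans h3⟩
    show ‖ξ (n + 2)‖ ≤ _
    rw [hξ n]
    calc ‖(P n).derivative.eval (Xs P b (n + 1) z) * ξ (n + 1) - b n * ξ n‖
        ≤ ‖(P n).derivative.eval (Xs P b (n + 1) z) * ξ (n + 1)‖ + ‖b n * ξ n‖ := norm_sub_le _ _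
      _ = ‖(P n).derivative.eval (Xs P b (n + 1) z)‖ * ‖ξ (n + 1)‖ + ‖b n‖ * ‖ξ n‖ := by
          rw [norm_mul, norm_mul]
      _ ≤ ‖(P n).derivative.eval (Xs P b (n + 1) z)‖ * (Λ ^ n * Ξ) + ‖b n‖ * (Λ ^ n * Ξ) := by
          gcongr
      _ = (‖(P n).derivative.eval (Xs P b (n + 1) z)‖ + ‖b n‖) * (Λ ^ n * Ξ) := by ring
      _ ≤ Λ * (Λ ^ n * Ξ) := by gcongr
      _ = _ := by ring

/-- The uniform upper bound. -/
theorem upper_bound (H : GoodSeq P b R C) {R1 Ξ : ℝ} (hR1 : R ≤ R1) (hΞ : 1 ≤ Ξ) :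
    ∃ K : ℝ, ∀ z : ℂ × ℂ, ‖z.1‖ ≤ R1 → ‖z.2‖ ≤ R1 → ∀ ξ : ℕ → ℂ, LinRec P b z ξ →
      ‖ξ 0‖ ≤ Ξ → ‖ξ 1‖ ≤ Ξ →
      (∀ N, Vs P b R N z → ∀ n ≥ N, ‖ξ (n + 1)‖ < ‖ξ n‖) →
      ∀ n : ℕ, ‖ξ n‖ ≤ Real.exp (K * (n + 1) - Dg P n * Gf P b R z) := by
  obtain ⟨Λ0, hΛ0⟩ := H.bdd R1
  set Λ := max 1 Λ0 with hΛdef
  have hΛ1 : 1 ≤ Λ := le_max_left _ _
  have hΛ : ∀ j, ∀ x y : ℂ, ‖x‖ ≤ R1 → ‖y‖ ≤ R1 →
      ‖(P j).eval x - b j * y‖ ≤ Λ ∧ ‖(P j).derivative.eval x‖ + ‖b j‖ ≤ Λ := fun j x y hx hy =>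
    ⟨(hΛ0 j x y hx hy).1.trans (le_max_right _ _), (hΛ0 j x y hx hy).2.trans (le_max_right _ _)⟩
  obtain ⟨C1, hC1, hG⟩ := Gf_spec H hR1
  have hR := (H.good 0).hR
  have hC := (H.good 0).hC
  have hC2 : (2 : ℝ) ≤ C := by
    have h1 := (H.good 0).degle
    have h2 : (2 : ℝ) ≤ (P 0).natDegree := by exact_mod_cast (H.good 0).deg
    linarith
  have hlogR : 0 ≤ Real.log R1 := Real.log_nonneg (by linarith)
  set C2 := C * (Real.log R1 + C1) with hC2def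
  set L := Λ + Real.exp (C + C * C1) with hL
  have hL1 : 1 ≤ L := by have := Real.exp_pos (C + C * C1); linarith
  have hΛL : Λ ≤ L := by have := Real.exp_pos (C + C * C1); linarith
  have heL : Real.exp (C + C * C1) ≤ L := by linarith
  have hlogL : 0 ≤ Real.log L := Real.log_nonneg hL1
  have hlogΞ : 0 ≤ Real.log Ξ := Real.log_nonneg hΞ
  have hC20 : 0 ≤ C2 := by positivity
  refine ⟨C2 + Real.log Ξ + Real.log L, ?_⟩
  intro z hz1 hz2 ξ hξ h0 h1 hdecr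
  have hz0 : ‖Xs P b 0 z‖ ≤ R1 := hz2
  have hGn := (hG z hz0).2
  have hG0 := Gf_nonneg H z
  -- key claim
  have key : ∀ n : ℕ, ‖ξ n‖ * Real.exp (Dg P n * Gf P b R z) ≤ Real.exp C2 * Ξ * L ^ n := by
    by_cases hex : ∃ N, Vs P b R N z
    · classical
      set N := Nat.find hex with hN
      have hVN : Vs P b R N z := Nat.find_spec hex
      have hnot : ∀ k < N, ¬ Vs P b R k z := fun k hk => Nat.find_min hex hk
      have hDN : Dg P N * Gf P b R z ≤ C2 := by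
        rcases Nat.eq_zero_or_pos N with h | h
        · rw [h]
          have h2 : Real.log (Ms P b R 0 z) ≤ Real.log R1 := by
            refine Real.log_le_log (by linarith [one_le_Ms H 0 z]) ?_
            exact max_le (max_le hz1 hz2) hR1
          have h3 := (abs_le.1 (hGn 0)).1
          have h4 : Dg P 0 * Gf P b R z ≤ Real.log R1 + C1 := by linarith
          have h5 : 0 ≤ Real.log R1 + C1 := by positivity
          nlinarith
        · obtain ⟨j, hj⟩ : ∃ j, N = j + 1 := ⟨N - 1, by omega⟩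
          have h2 : Real.log (Ms P b R j z) ≤ Real.log R1 :=
            Real.log_le_log (by linarith [one_le_Ms H j z])
              (not_Vs_Ms H hR1 hz0 (hnot j (by omega)))
          have h3 := (abs_le.1 (hGn j)).1
          have h4 : Dg P j * Gf P b R z ≤ Real.log R1 + C1 := by linarith
          have h5 : 0 ≤ Real.log R1 + C1 := by positivity
          rw [hj, Dg_succ, mul_assoc, hC2def]
          have h6 := (H.good j).degle
          have h7 : 0 ≤ Dg P j * Gf P b R z := mul_nonneg (Dg_pos H j).le hG0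
          exact mul_le_mul h6 h4 h7 hC
      intro n
      rcases le_total n N with hn | hn
      · have h2 := (hξ.early H hR1 hΛ1 hΛ hz0 h0 h1 (n := n) fun k hk => hnot k (by omega)).2
        have h3 : Dg P n * Gf P b R z ≤ C2 :=
          (mul_le_mul_of_nonneg_right (Dg_mono H hn) hG0).trans hDN
        calc ‖ξ n‖ * Real.exp (Dg P n * Gf P b R z) ≤ (Λ ^ n * Ξ) * Real.exp C2 := by
              gcongr
          _ ≤ (L ^ n * Ξ) * Real.exp C2 := by gcongr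
          _ = _ := by ring
      · induction n, hn using Nat.le_induction with
        | base =>
          have h2 := (hξ.early H hR1 hΛ1 hΛ hz0 h0 h1 (n := N) hnot).2
          calc ‖ξ N‖ * Real.exp (Dg P N * Gf P b R z) ≤ (Λ ^ N * Ξ) * Real.exp C2 := by
                gcongr
            _ ≤ (L ^ N * Ξ) * Real.exp C2 := by gcongr
            _ = _ := by ring
        | succ n hn ih =>
          have hVn : Vs P b R n z := Vs_mono H hn hVN
          have h2 := (hξ.step2 H hVn (hdecr N hVN (n + 1) (by omega)).le (hGn n)).1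
          calc ‖ξ (n + 1)‖ * Real.exp (Dg P (n + 1) * Gf P b R z)
              ≤ Real.exp (C + C * C1) * (‖ξ n‖ * Real.exp (Dg P n * Gf P b R z)) := h2
            _ ≤ L * (Real.exp C2 * Ξ * L ^ n) := by gcongr
            _ = _ := by ring
    · push Not at hex
      intro n
      have h2 := (hξ.early H hR1 hΛ1 hΛ hz0 h0 h1 (n := n) fun k _ => hex k).2
      rw [Gf_eq_zero H hex, mul_zero, Real.exp_zero, mul_one]
      calc ‖ξ n‖ ≤ Λ ^ n * Ξ := h2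
        _ ≤ L ^ n * Ξ := by gcongr
        _ = 1 * Ξ * L ^ n := by ring
        _ ≤ Real.exp C2 * Ξ * L ^ n := by
            gcongr
            exact Real.one_le_exp hC20
  intro n
  have h2 := key n
  have h3 : Real.exp C2 * Ξ * L ^ n ≤
      Real.exp ((C2 + Real.log Ξ + Real.log L) * (n + 1)) := by
    have e1 : L ^ n = Real.exp (n * Real.log L) := by
      rw [mul_comm, Real.exp_mul, Real.exp_log (by linarith), Real.rpow_natCast]
    have e2 : Ξ = Real.exp (Real.log Ξ) := (Real.exp_log (by linarith)).symm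
    rw [e1]
    nth_rewrite 1 [e2]
    rw [← Real.exp_add, ← Real.exp_add, Real.exp_le_exp]
    have hn : (0 : ℝ) ≤ n := Nat.cast_nonneg n
    nlinarith [mul_nonneg hC20 hn, mul_nonneg hlogΞ hn, mul_nonneg hlogL hn]
  rw [sub_eq_add_neg, Real.exp_add, Real.exp_neg, ← div_eq_mul_inv,
    le_div_iff₀ (Real.exp_pos _)]
  exact h2.trans h3

/-- The lower bound at escaping points. -/
theorem lower_bound (H : GoodSeq P b R C) {z : ℂ × ℂ} {ξ : ℕ → ℂ} (hξ : LinRec P b z ξ)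
    {N : ℕ} (hV : Vs P b R N z)
    (hdecr : ∀ n ≥ N, ‖ξ (n + 1)‖ < ‖ξ n‖) :
    ∃ c : ℝ, ∃ N : ℕ, ∀ n ≥ N,
      Real.exp (-(c * (n + 1)) - Dg P n * Gf P b R z) ≤ ‖ξ n‖ := by
  obtain ⟨C1, hC1, hG⟩ := Gf_spec H (le_max_left R ‖Xs P b 0 z‖)
  have hGn := (hG z (le_max_right _ _)).2
  have hC := (H.good 0).hC
  obtain ⟨a, ha⟩ : ∃ a : ℕ → ℝ, ∀ n, a n = ‖ξ n‖ * Real.exp (Dg P n * Gf P b R z) :=
    ⟨_, fun n => rfl⟩
  have hpos : 0 < a N := by
    have h1 : 0 < ‖ξ N‖ := lt_of_le_of_lt (norm_nonneg _) (hdecr N le_rfl)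
    rw [ha]
    positivity
  set C' := C + C * C1 with hC'
  have hC'0 : 0 ≤ C' := by positivity
  have hstep : ∀ n ≥ N, Real.exp (-C') * a n ≤ a (n + 1) := by
    intro n hn
    have h1 := (hξ.step2 H (Vs_mono H hn hV) (hdecr (n + 1) (by omega)).le (hGn n)).2
    rw [Real.exp_neg, inv_mul_le_iff₀ (Real.exp_pos _), ha, ha]
    exact h1
  have hind : ∀ n ≥ N, Real.exp (-(C' * n)) * a N ≤ a n := by
    intro n hn
    induction n, hn using Nat.le_induction with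
    | base =>
      have : Real.exp (-(C' * N)) ≤ 1 := Real.exp_le_one_iff.2 (by
        have : (0 : ℝ) ≤ N := Nat.cast_nonneg N
        nlinarith)
      nlinarith
    | succ n hn ih =>
      calc Real.exp (-(C' * (n + 1 : ℕ))) * a N = Real.exp (-C') * (Real.exp (-(C' * n)) * a N) := by
            rw [← mul_assoc, ← Real.exp_add]; congr 2; push_cast; ring
        _ ≤ Real.exp (-C') * a n := by gcongr
        _ ≤ _ := hstep n hn
  refine ⟨C' + |Real.log (a N)|, N, fun n hn => ?_⟩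
  have h1 := hind n hn
  have h2 : Real.exp (-((C' + |Real.log (a N)|) * (n + 1))) ≤ a n := by
    refine le_trans ?_ h1
    nth_rewrite 2 [← Real.exp_log hpos]
    rw [← Real.exp_add, Real.exp_le_exp]
    have hn0 : (0 : ℝ) ≤ n := Nat.cast_nonneg n
    have h3 := neg_abs_le (Real.log (a N))
    have h4 := abs_nonneg (Real.log (a N))
    nlinarith [mul_nonneg h4 hn0]
  rw [sub_eq_add_neg, Real.exp_add, Real.exp_neg (Dg P n * Gf P b R z), ← div_eq_mul_inv,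
    div_le_iff₀ (Real.exp_pos _)]
  exact h2.trans (ha n).le

end

end Pool.Agent.H701R2.Fol
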