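import Mathlib

set_option autoImplicit false

open Metric Set Filter Topology

namespace Pool.Agent.H701R2.Fol

theorem exists_log_ball {f : ℂ → ℂ} {c : ℂ} {r : ℝ} (hf : DifferentiableOn ℂ f (ball c r))
    (h0 : ∀ z ∈ ball c r, f z ≠ 0) :
    ∃ g : ℂ → ℂ, DifferentiableOn ℂ g (ball c r) ∧ ∀ z ∈ ball c r, Complex.exp (g z) = f z := by
  by_cases hr : 0 < r
  swap
  · refine ⟨fun _ => 0, differentiableOn_const _, fun z hz => ?_⟩
    rw [ball_eq_empty.2 (not_lt.1 hr)] at hz
    exact absurd hz (notMem_empty z)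
  have hc : c ∈ ball c r := mem_ball_self hr
  have hd : DifferentiableOn ℂ (fun z => deriv f z / f z) (ball c r) :=
    (hf.deriv isOpen_ball).div hf h0
  obtain ⟨g, hg0, hg⟩ := hd.isExactOn_ball.with_val_at c (Complex.log (f c))
  have hgd : DifferentiableOn ℂ g (ball c r) := fun z hz =>
    (hg z hz).differentiableAt.differentiableWithinAt
  refine ⟨g, hgd, ?_⟩
  have hconst : ∀ z ∈ ball c r, f z * Complex.exp (-g z) = f c * Complex.exp (-g c) := by
    intro z hz
    have hder : ∀ w ∈ ball c r, HasDerivAt (fun w => f w * Complex.exp (-g w)) 0 w := by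
      intro w hw
      have h1 : HasDerivAt f (deriv f w) w :=
        (hf.differentiableAt (isOpen_ball.mem_nhds hw)).hasDerivAt
      have h2 := h1.mul ((hg w hw).neg.cexp)
      refine h2.congr_deriv ?_
      have := h0 w hw
      field_simp
      ring
    refine (convex_ball c r).is_const_of_fderivWithin_eq_zero (𝕜 := ℂ)
      (f := fun w => f w * Complex.exp (-g w)) (fun w hw =>
        (hder w hw).differentiableAt.differentiableWithinAt) ?_ hz hc
    intro w hw
    rw [fderivWithin_of_isOpen isOpen_ball hw]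
    ext
    simp [(hder w hw).deriv]
  intro z hz
  have h1 := hconst z hz
  rw [hg0, Complex.exp_neg (Complex.log (f c)), Complex.exp_log (h0 c hc),
    mul_inv_cancel₀ (h0 c hc), Complex.exp_neg] at h1
  have h2 := Complex.exp_ne_zero (g z)
  field_simp at h1
  exact h1.symm

/-- Schwarz-Pick: logarithmic derivative bound for functions with `‖f‖ > 1`. -/
theorem deriv_le_log {f : ℂ → ℂ} {r : ℝ} (hr : 0 < r) (hf : DifferentiableOn ℂ f (ball 0 r))
    (h1 : ∀ z ∈ ball (0 : ℂ) r, 1 < ‖f z‖) :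
    ‖deriv f 0‖ ≤ 2 / r * (‖f 0‖ * Real.log ‖f 0‖) := by
  have h0 : ∀ z ∈ ball (0 : ℂ) r, f z ≠ 0 := fun z hz h => by
    have := h1 z hz; rw [h, norm_zero] at this; linarith
  obtain ⟨g, hg, hexp⟩ := exists_log_ball hf h0
  have hre : ∀ z ∈ ball (0 : ℂ) r, (g z).re = Real.log ‖f z‖ := by
    intro z hz
    rw [← hexp z hz, Complex.norm_exp, Real.log_exp]
  have hpos : ∀ z ∈ ball (0 : ℂ) r, 0 < (g z).re := by
    intro z hz; rw [hre z hz]; exact Real.log_pos (h1 z hz)
  have h00 : (0 : ℂ) ∈ ball (0 : ℂ) r := mem_ball_self hr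
  set A := g 0 with hA
  have hApos : 0 < A.re := hpos 0 h00
  have hden : ∀ z ∈ ball (0 : ℂ) r, g z + starRingEnd ℂ A ≠ 0 := by
    intro z hz h
    have := congrArg Complex.re h
    simp only [Complex.add_re, Complex.conj_re, Complex.zero_re] at this
    linarith [hpos z hz]
  set w : ℂ → ℂ := fun z => (g z - A) / (g z + starRingEnd ℂ A) with hw
  have hwd : DifferentiableOn ℂ w (ball 0 r) :=
    (hg.sub_const A).div (hg.add_const _) hden
  have hw0 : w 0 = 0 := by rw [hw]; simp [hA]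
  have hmaps : MapsTo w (ball 0 r) (closedBall (w 0) 1) := by
    intro z hz
    rw [hw0, mem_closedBall_zero_iff, hw]
    simp only
    rw [norm_div, div_le_one (norm_pos_iff.2 (hden z hz))]
    have : Complex.normSq (g z - A) ≤ Complex.normSq (g z + starRingEnd ℂ A) := by
      rw [Complex.normSq_apply, Complex.normSq_apply]
      simp only [Complex.sub_re, Complex.sub_im, Complex.add_re, Complex.add_im,
        Complex.conj_re, Complex.conj_im]
      have := mul_pos (hpos z hz) hApos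
      nlinarith
    rw [Complex.normSq_eq_norm_sq, Complex.normSq_eq_norm_sq] at this
    exact (sq_le_sq₀ (norm_nonneg _) (norm_nonneg _)).1 this
  have hb := Complex.norm_deriv_le_div_of_mapsTo_ball hwd hmaps hr
  have hgd : HasDerivAt g (deriv g 0) 0 :=
    (hg.differentiableAt (isOpen_ball.mem_nhds h00)).hasDerivAt
  have hwder : deriv w 0 = deriv g 0 / (2 * A.re : ℝ) := by
    have h2 := (hgd.sub_const A).div (hgd.add_const (starRingEnd ℂ A)) (hden 0 h00)
    have h3 : HasDerivAt w _ 0 := h2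
    rw [h3.deriv, ← hA, sub_self, zero_mul, sub_zero]
    have h4 : A + starRingEnd ℂ A = ((2 * A.re : ℝ) : ℂ) := Complex.add_conj A
    rw [h4]
    have h5 : ((2 * A.re : ℝ) : ℂ) ≠ 0 := by exact_mod_cast (by positivity : (2 * A.re : ℝ) ≠ 0)
    field_simp
  have hfder : deriv f 0 = f 0 * deriv g 0 := by
    have h2 : f =ᶠ[𝓝 0] fun z => Complex.exp (g z) := by
      filter_upwards [isOpen_ball.mem_nhds h00] with z hz using (hexp z hz).symm
    rw [h2.deriv_eq, hgd.cexp.deriv, hexp 0 h00]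
  rw [hwder, norm_div, Complex.norm_real, Real.norm_eq_abs, abs_of_pos (by positivity),
    div_le_iff₀ (by positivity)] at hb
  rw [hfder, norm_mul]
  have h6 : A.re = Real.log ‖f 0‖ := hre 0 h00
  rw [← h6]
  calc ‖f 0‖ * ‖deriv g 0‖ ≤ ‖f 0‖ * (1 / r * (2 * A.re)) := by gcongr
    _ = _ := by ring

/-- second order remainder -/
theorem slope_sub_deriv {f : ℂ → ℂ} {r M : ℝ} (hr : 0 < r)
    (hf : DifferentiableOn ℂ f (ball 0 r)) (hM : ∀ z ∈ ball (0 : ℂ) r, ‖f z‖ ≤ M)
    {h : ℂ} (hh : h ∈ ball (0 : ℂ) r) (hh0 : h ≠ 0) :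
    ‖(f h - f 0) / h - deriv f 0‖ ≤ 4 * M / r ^ 2 * ‖h‖ := by
  have h00 : (0 : ℂ) ∈ ball (0 : ℂ) r := mem_ball_self hr
  have hmaps : MapsTo f (ball 0 r) (closedBall (f 0) (2 * M)) := by
    intro z hz
    rw [mem_closedBall, dist_eq_norm]
    exact (norm_sub_le _ _).trans (by linarith [hM z hz, hM 0 h00])
  set φ := dslope f 0 with hφ
  have hφd : DifferentiableOn ℂ φ (ball 0 r) := by
    rw [hφ, Complex.differentiableOn_dslope (isOpen_ball.mem_nhds h00)]
    exact hf
  have hφb : ∀ z ∈ ball (0 : ℂ) r, ‖φ z‖ ≤ 2 * M / r := fun z hz =>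
    Complex.norm_dslope_le_div_of_mapsTo_ball hf hmaps hz
  have hmaps2 : MapsTo φ (ball 0 r) (closedBall (φ 0) (4 * M / r)) := by
    intro z hz
    rw [mem_closedBall, dist_eq_norm]
    refine (norm_sub_le _ _).trans ?_
    have := hφb z hz
    have := hφb 0 h00
    have e : 4 * M / r = 2 * M / r + 2 * M / r := by ring
    linarith
  have h3 := Complex.dist_le_div_mul_dist_of_mapsTo_ball hφd hmaps2 hh
  rw [dist_eq_norm, dist_eq_norm, sub_zero] at h3
  have e1 : φ h = (f h - f 0) / h := by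
    rw [hφ, dslope_of_ne _ hh0, slope_def_field, sub_zero]
  have e2 : φ 0 = deriv f 0 := by rw [hφ, dslope_same]
  rw [e1, e2] at h3
  refine h3.trans (le_of_eq ?_)
  field_simp

/-- The partial derivative along the first variable is holomorphic in the second variable. -/
theorem deriv_fst_differentiableOn {F : ℂ × ℂ → ℂ}
    (hF : DifferentiableOn ℂ F (ball (0 : ℂ) 1 ×ˢ ball (0 : ℂ) 1)) :
    DifferentiableOn ℂ (fun t => deriv (fun s => F (s, t)) 0) (ball 0 1) := by
  intro t0 ht0
  obtain ⟨δ, hδ, hδsub⟩ : ∃ δ > 0, closedBall t0 δ ⊆ ball (0 : ℂ) 1 :=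
    nhds_basis_closedBall.mem_iff.1 (isOpen_ball.mem_nhds ht0)
  have hKsub : closedBall (0 : ℂ) (1 / 2) ×ˢ closedBall t0 δ ⊆ ball (0 : ℂ) 1 ×ˢ ball (0 : ℂ) 1 :=
    prod_mono (closedBall_subset_ball (by norm_num)) hδsub
  obtain ⟨M, hM⟩ := ((isCompact_closedBall (0 : ℂ) (1 / 2)).prod
    (isCompact_closedBall t0 δ)).exists_bound_of_continuousOn (hF.continuousOn.mono hKsub)
  have hopen : IsOpen (ball (0 : ℂ) 1 ×ˢ ball (0 : ℂ) 1) := isOpen_ball.prod isOpen_ball
  have hslice1 : ∀ t ∈ closedBall t0 δ, DifferentiableOn ℂ (fun s => F (s, t)) (ball 0 (1 / 2)) := by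
    intro t ht s hs
    have h1 : DifferentiableAt ℂ F (s, t) := hF.differentiableAt (hopen.mem_nhds
      (hKsub ⟨ball_subset_closedBall hs, ht⟩))
    have h2 : DifferentiableAt ℂ (fun s : ℂ => (s, t)) s := by fun_prop
    exact (DifferentiableAt.comp s h1 h2).differentiableWithinAt
  have hslice2 : ∀ s ∈ ball (0 : ℂ) (1 / 2), DifferentiableOn ℂ (fun t => F (s, t)) (ball t0 δ) := by
    intro s hs t ht
    have h1 : DifferentiableAt ℂ F (s, t) := hF.differentiableAt (hopen.mem_nhds
      (hKsub ⟨ball_subset_closedBall hs, ball_subset_closedBall ht⟩))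
    have h2 : DifferentiableAt ℂ (fun t : ℂ => (s, t)) t := by fun_prop
    exact (DifferentiableAt.comp t h1 h2).differentiableWithinAt
  set hk : ℕ → ℂ := fun k => ((1 / ((k : ℝ) + 3) : ℝ) : ℂ) with hhk
  have hkpos : ∀ k : ℕ, 0 < (1 / ((k : ℝ) + 3) : ℝ) := fun k => by positivity
  have hknorm : ∀ k, ‖hk k‖ = 1 / ((k : ℝ) + 3) := by
    intro k
    rw [hhk, Complex.norm_real, Real.norm_eq_abs, abs_of_pos (hkpos k)]
  have hkne : ∀ k, hk k ≠ 0 := by
    intro k h
    have := hknorm k
    rw [h, norm_zero] at this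
    linarith [hkpos k]
  have hkball : ∀ k, hk k ∈ ball (0 : ℂ) (1 / 2) := by
    intro k
    rw [mem_ball_zero_iff, hknorm]
    rw [one_div_lt_one_div (by positivity) (by norm_num)]
    have : (0 : ℝ) ≤ k := Nat.cast_nonneg k
    linarith
  have hlim0 : Tendsto (fun k : ℕ => 4 * M / (1 / 2) ^ 2 * (1 / ((k : ℝ) + 3))) atTop (𝓝 0) := by
    have h1 : Tendsto (fun k : ℕ => (1 / ((k : ℝ) + 3))) atTop (𝓝 0) := by
      simp only [one_div]
      refine tendsto_inv_atTop_zero.comp ?_
      exact tendsto_atTop_add_const_right _ _ tendsto_natCast_atTop_atTop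
    have := h1.const_mul (4 * M / (1 / 2) ^ 2)
    simpa using this
  have huni : TendstoUniformlyOn (fun (k : ℕ) t => (F (hk k, t) - F (0, t)) / hk k)
      (fun t => deriv (fun s => F (s, t)) 0) atTop (ball t0 δ) := by
    rw [Metric.tendstoUniformlyOn_iff]
    intro ε hε
    filter_upwards [hlim0.eventually_lt_const hε] with k hkε t ht
    have htc := ball_subset_closedBall ht
    have h1 := slope_sub_deriv (f := fun s => F (s, t)) (M := M) (by norm_num : (0 : ℝ) < 1 / 2)
      (hslice1 t htc) (fun z hz => hM (z, t) ⟨ball_subset_closedBall hz, htc⟩) (hkball k) (hkne k)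
    rw [dist_comm, dist_eq_norm]
    rw [hknorm] at h1
    exact lt_of_le_of_lt h1 hkε
  have hdiff : DifferentiableOn ℂ (fun t => deriv (fun s => F (s, t)) 0) (ball t0 δ) := by
    refine huni.tendstoLocallyUniformlyOn.differentiableOn (Eventually.of_forall fun k => ?_)
      isOpen_ball
    have e1 := hslice2 (hk k) (hkball k)
    have e2 := hslice2 0 (mem_ball_self (by norm_num))
    exact (e1.sub e2).div_const _
  exact (hdiff.differentiableAt (isOpen_ball.mem_nhds (mem_ball_self hδ))).differentiableWithinAt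

end Pool.Agent.H701R2.Fol
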