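import Pool.Agent.H701R2.FolB
import Pool.Agent.H701R2.FolE
import Pool.Agent.H701R2.FolF

set_option autoImplicit false

open Metric Set Filter Topology Polynomial

namespace Pool.Agent.H701R2.Fol

theorem Xs_differentiable (P : ℕ → ℂ[X]) (b : ℕ → ℂ) (n : ℕ) : Differentiable ℂ (Xs P b n) := by
  induction n using Nat.strong_induction_on with
  | _ n ih =>
    match n, ih with
    | 0, _ => exact differentiable_snd
    | 1, _ => exact differentiable_fst
    | n + 2, ih =>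
      have h1 := ih (n + 1) (by omega)
      have h2 := ih n (by omega)
      exact ((P n).differentiable.comp h1).sub (h2.const_mul (b n))

/-- derivative along the leaf -/
noncomputable def xi (P : ℕ → ℂ[X]) (b : ℕ → ℂ) (ψ : ℂ × ℂ → ℂ × ℂ) (n : ℕ) (t : ℂ) : ℂ :=
  deriv (fun s => Xs P b n (ψ (s, t))) 0

noncomputable def gs (P : ℕ → ℂ[X]) (b : ℕ → ℂ) (ψ : ℂ × ℂ → ℂ × ℂ) (n : ℕ) (t : ℂ) : ℂ :=
  xi P b ψ (n + 1) t / (Dg P n * Xs P b (n + 1) (ψ (0, t)))

open Classical in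
noncomputable def gl (P : ℕ → ℂ[X]) (b : ℕ → ℂ) (R : ℝ) (ψ : ℂ × ℂ → ℂ × ℂ) (t : ℂ) : ℂ :=
  if 0 < Gf P b R (ψ (0, t)) then limUnder atTop (fun n => gs P b ψ n t) else 0

def LeafV (P : ℕ → ℂ[X]) (b : ℕ → ℂ) (R : ℝ) (ψ : ℂ × ℂ → ℂ × ℂ) (N : ℕ) (t : ℂ) : Prop :=
  ∀ s ∈ ball (0 : ℂ) (1 / 2), Vs P b R N (ψ (s, t))

section

variable {P : ℕ → ℂ[X]} {b : ℕ → ℂ} {R C : ℝ} {ψ : ℂ × ℂ → ℂ × ℂ}

theorem Vs_eventually (H : GoodSeq P b R C) {n : ℕ} {z : ℂ × ℂ} (h : Vs P b R n z) :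
    ∀ᶠ z' in 𝓝 z, Vs P b R (n + 1) z' := by
  have h1 := Vs_dbl H h
  have hR := (H.good 0).hR
  have h2 := h.1
  have c1 : Continuous fun z' => ‖Xs P b (n + 2) z'‖ := (Xs_continuous P b (n + 2)).norm
  have c2 : Continuous fun z' => ‖Xs P b (n + 2) z'‖ - ‖Xs P b (n + 1) z'‖ :=
    c1.sub (Xs_continuous P b (n + 1)).norm
  have e1 : ∀ᶠ z' in 𝓝 z, R < ‖Xs P b (n + 2) z'‖ :=
    c1.continuousAt.eventually_const_lt (by linarith)
  have e2 : ∀ᶠ z' in 𝓝 z, 0 < ‖Xs P b (n + 2) z'‖ - ‖Xs P b (n + 1) z'‖ :=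
    c2.continuousAt.eventually_const_lt (by linarith)
  filter_upwards [e1, e2] with z' h3 h4
  exact ⟨h3.le, by show ‖Xs P b (n + 1) z'‖ ≤ ‖Xs P b (n + 2) z'‖; linarith⟩

theorem slice_s (hψ : DifferentiableOn ℂ ψ (ball (0 : ℂ) 1 ×ˢ ball (0 : ℂ) 1)) {t : ℂ}
    (ht : t ∈ ball (0 : ℂ) 1) : DifferentiableOn ℂ (fun s => ψ (s, t)) (ball 0 1) := by
  intro s hs
  have h1 : DifferentiableAt ℂ ψ (s, t) := hψ.differentiableAt
    ((isOpen_ball.prod isOpen_ball).mem_nhds ⟨hs, ht⟩)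
  have h2 : DifferentiableAt ℂ (fun s : ℂ => (s, t)) s := by fun_prop
  exact (DifferentiableAt.comp s h1 h2).differentiableWithinAt

theorem slice_t (hψ : DifferentiableOn ℂ ψ (ball (0 : ℂ) 1 ×ˢ ball (0 : ℂ) 1)) :
    DifferentiableOn ℂ (fun t => ψ (0, t)) (ball 0 1) := by
  intro t ht
  have h1 : DifferentiableAt ℂ ψ (0, t) := hψ.differentiableAt
    ((isOpen_ball.prod isOpen_ball).mem_nhds ⟨mem_ball_self one_pos, ht⟩)
  have h2 : DifferentiableAt ℂ (fun t : ℂ => ((0 : ℂ), t)) t := by fun_prop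
  exact (DifferentiableAt.comp t h1 h2).differentiableWithinAt

theorem xi_hasDerivAt (hψ : DifferentiableOn ℂ ψ (ball (0 : ℂ) 1 ×ˢ ball (0 : ℂ) 1)) {t : ℂ}
    (ht : t ∈ ball (0 : ℂ) 1) (n : ℕ) :
    HasDerivAt (fun s => Xs P b n (ψ (s, t))) (xi P b ψ n t) 0 := by
  have h1 : DifferentiableAt ℂ (fun s => ψ (s, t)) 0 :=
    (slice_s hψ ht).differentiableAt (isOpen_ball.mem_nhds (mem_ball_self one_pos))
  exact (DifferentiableAt.comp (0 : ℂ) (Xs_differentiable P b n).differentiableAt h1).hasDerivAt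

theorem xi_linRec (hψ : DifferentiableOn ℂ ψ (ball (0 : ℂ) 1 ×ˢ ball (0 : ℂ) 1)) {t : ℂ}
    (ht : t ∈ ball (0 : ℂ) 1) : LinRec P b (ψ (0, t)) (fun n => xi P b ψ n t) := by
  intro n
  have h0 := xi_hasDerivAt (P := P) (b := b) hψ ht n
  have h1 := xi_hasDerivAt (P := P) (b := b) hψ ht (n + 1)
  have h2 := xi_hasDerivAt (P := P) (b := b) hψ ht (n + 2)
  have h3 : HasDerivAt (fun s => (P n).eval (Xs P b (n + 1) (ψ (s, t))))
      ((P n).derivative.eval (Xs P b (n + 1) (ψ (0, t))) * xi P b ψ (n + 1) t) 0 :=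
    HasDerivAt.comp (0 : ℂ) ((P n).hasDerivAt _) h1
  have h4 : HasDerivAt (fun s => Xs P b (n + 2) (ψ (s, t)))
      ((P n).derivative.eval (Xs P b (n + 1) (ψ (0, t))) * xi P b ψ (n + 1) t
        - b n * xi P b ψ n t) 0 := h3.sub (h0.const_mul (b n))
  exact h2.unique h4

theorem xi_differentiableOn (hψ : DifferentiableOn ℂ ψ (ball (0 : ℂ) 1 ×ˢ ball (0 : ℂ) 1))
    (n : ℕ) : DifferentiableOn ℂ (xi P b ψ n) (ball 0 1) :=
  deriv_fst_differentiableOn (F := fun z => Xs P b n (ψ z))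
    ((Xs_differentiable P b n).comp_differentiableOn hψ)

theorem lc_ne (H : GoodSeq P b R C) (n : ℕ) : (P n).leadingCoeff ≠ 0 := by
  intro h0
  rw [leadingCoeff_eq_zero] at h0
  have := (H.good n).deg
  rw [h0] at this; simp at this

theorem Xs_ne (H : GoodSeq P b R C) {n : ℕ} {z : ℂ × ℂ} (h : Vs P b R n z) :
    Xs P b (n + 1) z ≠ 0 := by
  have := h.1
  have hR := (H.good 0).hR
  intro h0
  rw [h0, norm_zero] at this
  linarith

/-- the normalised quotient -/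
noncomputable def ws (P : ℕ → ℂ[X]) (b : ℕ → ℂ) (n : ℕ) (z : ℂ × ℂ) : ℂ :=
  Xs P b (n + 2) z / ((P n).leadingCoeff * Xs P b (n + 1) z ^ (P n).natDegree)

theorem ws_near (H : GoodSeq P b R C) {n : ℕ} {z : ℂ × ℂ} (h : Vs P b R n z) :
    ‖ws P b n z - 1‖ ≤ 1 / 2 := by
  have h1 := (H.good n).near _ _ h.1 h.2
  rw [← Xs_succ_succ] at h1
  exact h1

theorem ws_slit (H : GoodSeq P b R C) {n : ℕ} {z : ℂ × ℂ} (h : Vs P b R n z) :
    ws P b n z ∈ Complex.slitPlane := by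
  have h1 := ws_near H h
  left
  have h2 := (abs_le.1 (Complex.abs_re_le_norm (ws P b n z - 1))).1
  simp only [Complex.sub_re, Complex.one_re] at h2
  linarith

theorem ws_log_le (H : GoodSeq P b R C) {n : ℕ} {z : ℂ × ℂ} (h : Vs P b R n z) :
    ‖Complex.log (ws P b n z)‖ ≤ 1 := by
  have h1 := ws_near H h
  have h2 := Complex.norm_log_one_add_half_le_self h1
  rw [add_sub_cancel] at h2
  linarith

theorem ws_log_norm (H : GoodSeq P b R C) {n : ℕ} {z : ℂ × ℂ} (h : Vs P b R n z) :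
    Real.log ‖(P n).leadingCoeff‖ + Real.log ‖ws P b n z‖ =
      Real.log ‖Xs P b (n + 2) z‖ - (P n).natDegree * Real.log ‖Xs P b (n + 1) z‖ := by
  have hx : 0 < ‖Xs P b (n + 1) z‖ := norm_pos_iff.2 (Xs_ne H h)
  have hx2 : 0 < ‖Xs P b (n + 2) z‖ := norm_pos_iff.2 (Xs_ne H (Vs_succ H h))
  have hc : 0 < ‖(P n).leadingCoeff‖ := norm_pos_iff.2 (lc_ne H n)
  rw [ws, norm_div, norm_mul, norm_pow, Real.log_div hx2.ne' (by positivity),
    Real.log_mul hc.ne' (by positivity), Real.log_pow]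
  ring

theorem leaf_ratio (H : GoodSeq P b R C)
    (hψ : DifferentiableOn ℂ ψ (ball (0 : ℂ) 1 ×ˢ ball (0 : ℂ) 1)) {t : ℂ}
    (ht : t ∈ ball (0 : ℂ) 1) {n : ℕ} (hL : LeafV P b R ψ n t) :
    ‖xi P b ψ (n + 2) t / Xs P b (n + 2) (ψ (0, t))
      - (P n).natDegree * (xi P b ψ (n + 1) t / Xs P b (n + 1) (ψ (0, t)))‖ ≤ 4 := by
  have h00 : (0 : ℂ) ∈ ball (0 : ℂ) (1 / 2) := mem_ball_self (by norm_num)
  have hsub : ball (0 : ℂ) (1 / 2) ⊆ ball (0 : ℂ) 1 := ball_subset_ball (by norm_num)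
  have hXd : ∀ k, DifferentiableOn ℂ (fun s => Xs P b k (ψ (s, t))) (ball 0 (1 / 2)) := fun k =>
    (Xs_differentiable P b k).comp_differentiableOn ((slice_s hψ ht).mono hsub)
  have hwd : DifferentiableOn ℂ (fun s => ws P b n (ψ (s, t))) (ball 0 (1 / 2)) := by
    refine (hXd (n + 2)).div (((hXd (n + 1)).pow _).const_mul _) ?_
    intro s hs
    exact mul_ne_zero (lc_ne H n) (pow_ne_zero _ (Xs_ne H (hL s hs)))
  have hld : DifferentiableOn ℂ (fun s => Complex.log (ws P b n (ψ (s, t)))) (ball 0 (1 / 2)) :=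
    hwd.clog fun s hs => ws_slit H (hL s hs)
  have hmaps : MapsTo (fun s => Complex.log (ws P b n (ψ (s, t)))) (ball 0 (1 / 2))
      (closedBall (Complex.log (ws P b n (ψ (0, t)))) 2) := by
    intro s hs
    rw [mem_closedBall, dist_eq_norm]
    refine (norm_sub_le _ _).trans ?_
    linarith [ws_log_le H (hL s hs), ws_log_le H (hL 0 h00)]
  have h1 := Complex.norm_deriv_le_div_of_mapsTo_ball hld hmaps (by norm_num)
  have hX1 := Xs_ne H (hL 0 h00)
  have hX2 := Xs_ne H (Vs_succ H (hL 0 h00))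
  have hder : deriv (fun s => Complex.log (ws P b n (ψ (s, t)))) 0
      = xi P b ψ (n + 2) t / Xs P b (n + 2) (ψ (0, t))
      - (P n).natDegree * (xi P b ψ (n + 1) t / Xs P b (n + 1) (ψ (0, t))) := by
    have d1 := xi_hasDerivAt (P := P) (b := b) hψ ht (n + 1)
    have d2 := xi_hasDerivAt (P := P) (b := b) hψ ht (n + 2)
    have hcne := lc_ne H n
    have d3 := (d1.fun_pow (P n).natDegree).const_mul (P n).leadingCoeff
    have hne : (P n).leadingCoeff * Xs P b (n + 1) (ψ (0, t)) ^ (P n).natDegree ≠ 0 :=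
      mul_ne_zero hcne (pow_ne_zero _ hX1)
    have d4 := d2.fun_div d3 hne
    have d5 : HasDerivAt (fun s => ws P b n (ψ (s, t))) _ 0 := d4
    have d6 := d5.clog (ws_slit H (hL 0 h00))
    rw [d6.deriv, ws]
    obtain ⟨d, hd⟩ : ∃ d, (P n).natDegree = d + 1 :=
      ⟨(P n).natDegree - 1, by have := (H.good n).deg; omega⟩
    rw [hd]
    simp only [Nat.add_sub_cancel]
    have hX2' : Xs P b (n + 2) (ψ (0, t)) ≠ 0 := hX2
    field_simp
    push_cast
    ring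
  rw [hder] at h1
  exact h1.trans (by norm_num)

theorem leaf_log (H : GoodSeq P b R C)
    (hψ : DifferentiableOn ℂ ψ (ball (0 : ℂ) 1 ×ˢ ball (0 : ℂ) 1)) {t : ℂ}
    (ht : t ∈ ball (0 : ℂ) 1) {n : ℕ} (hL : LeafV P b R ψ n t) :
    ‖xi P b ψ (n + 2) t‖ ≤ 4 * (‖Xs P b (n + 2) (ψ (0, t))‖
      * Real.log ‖Xs P b (n + 2) (ψ (0, t))‖) := by
  have hsub : ball (0 : ℂ) (1 / 2) ⊆ ball (0 : ℂ) 1 := ball_subset_ball (by norm_num)
  have hXd : DifferentiableOn ℂ (fun s => Xs P b (n + 2) (ψ (s, t))) (ball 0 (1 / 2)) :=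
    (Xs_differentiable P b _).comp_differentiableOn ((slice_s hψ ht).mono hsub)
  have h1 := deriv_le_log (by norm_num : (0 : ℝ) < 1 / 2) hXd (fun s hs => by
    have h2 := Vs_dbl H (hL s hs)
    have h3 := (hL s hs).1
    have hR := (H.good 0).hR
    linarith)
  refine h1.trans (le_of_eq ?_)
  norm_num

theorem LeafV.mono (H : GoodSeq P b R C) {n k : ℕ} (hnk : n ≤ k) {t : ℂ}
    (h : LeafV P b R ψ n t) : LeafV P b R ψ k t := fun s hs => Vs_mono H hnk (h s hs)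

theorem gs_conv (H : GoodSeq P b R C)
    (hψ : DifferentiableOn ℂ ψ (ball (0 : ℂ) 1 ×ˢ ball (0 : ℂ) 1)) {t : ℂ}
    (ht : t ∈ ball (0 : ℂ) 1) {N : ℕ} (hL : LeafV P b R ψ N t) :
    (∀ n ≥ N, ‖gs P b ψ n t - gl P b R ψ t‖ ≤ 4 / Dg P n) ∧
      ‖gl P b R ψ t‖ ≤ 4 * Gf P b R (ψ (0, t)) := by
  have h00 : (0 : ℂ) ∈ ball (0 : ℂ) (1 / 2) := mem_ball_self (by norm_num)
  have hV0 : Vs P b R N (ψ (0, t)) := hL 0 h00
  have hGpos : 0 < Gf P b R (ψ (0, t)) := Gf_pos_of_Vs H hV0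
  have hLn : ∀ n ≥ N, LeafV P b R ψ n t := fun n hn => hL.mono H hn
  have hdist : ∀ n ≥ N, dist (gs P b ψ n t) (gs P b ψ (n + 1) t) ≤ 4 / Dg P (n + 1) := by
    intro n hn
    have h1 := leaf_ratio H hψ ht (hLn n hn)
    have hD := Dg_pos H n
    have hD1 := Dg_pos H (n + 1)
    have hX1 := Xs_ne H (hLn n hn 0 h00)
    have hX2 := Xs_ne H (Vs_succ H (hLn n hn 0 h00))
    have hd0 : ((P n).natDegree : ℂ) ≠ 0 := by
      have := (H.good n).deg
      exact_mod_cast (by omega : (P n).natDegree ≠ 0)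
    have hDc : (Dg P n : ℂ) ≠ 0 := by exact_mod_cast hD.ne'
    have e : gs P b ψ (n + 1) t - gs P b ψ n t =
        (xi P b ψ (n + 2) t / Xs P b (n + 2) (ψ (0, t))
          - (P n).natDegree * (xi P b ψ (n + 1) t / Xs P b (n + 1) (ψ (0, t))))
          / (Dg P (n + 1) : ℂ) := by
      rw [gs, gs, Dg_succ]
      push_cast
      have hX2' : Xs P b (n + 1 + 1) (ψ (0, t)) ≠ 0 := hX2
      have e2 : Xs P b (n + 2) (ψ (0, t)) = Xs P b (n + 1 + 1) (ψ (0, t)) := rfl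
      have e3 : xi P b ψ (n + 2) t = xi P b ψ (n + 1 + 1) t := rfl
      rw [e2, e3]
      field_simp
    rw [dist_comm, dist_eq_norm, e, norm_div, Complex.norm_real, Real.norm_eq_abs,
      abs_of_pos hD1]
    gcongr
  have hdist2 : ∀ n ≥ N, ∀ k, dist (gs P b ψ (n + k) t) (gs P b ψ (n + (k + 1)) t)
      ≤ (4 / (2 * Dg P n)) * (1 / 2) ^ k := by
    intro n hn k
    refine (hdist (n + k) (by omega)).trans ?_
    have h1 := Dg_add H n (k + 1)
    have hD := Dg_pos H n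
    rw [← add_assoc] at h1
    calc 4 / Dg P (n + k + 1) ≤ 4 / (Dg P n * 2 ^ (k + 1)) := by gcongr
      _ = _ := by rw [pow_succ, one_div, inv_pow]; field_simp
  have hcau : CauchySeq (fun k => gs P b ψ (N + k) t) :=
    cauchySeq_of_le_geometric (1 / 2) (4 / (2 * Dg P N)) (by norm_num) (hdist2 N le_rfl)
  have hlim : Tendsto (fun n => gs P b ψ n t) atTop (𝓝 (gl P b R ψ t)) := by
    obtain ⟨l, hl⟩ := cauchySeq_tendsto_of_complete hcau
    have hl' : Tendsto (fun n => gs P b ψ n t) atTop (𝓝 l) := by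
      refine (tendsto_add_atTop_iff_nat N).1 ?_
      simpa [add_comm] using hl
    have : gl P b R ψ t = l := by
      rw [gl, if_pos hGpos]
      exact hl'.limUnder_eq
    rw [this]; exact hl'
  refine ⟨fun n hn => ?_, ?_⟩
  · have hlim' : Tendsto (fun k => gs P b ψ (n + k) t) atTop (𝓝 (gl P b R ψ t)) := by
      have := (tendsto_add_atTop_iff_nat n).2 hlim
      simpa [add_comm] using this
    have h1 := dist_le_of_le_geometric_of_tendsto₀ (1 / 2) (4 / (2 * Dg P n)) (by norm_num)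
      (hdist2 n hn) hlim'
    have hD := Dg_pos H n
    have h2 : 4 / (2 * Dg P n) / (1 - 1 / 2) = 4 / Dg P n := by field_simp; norm_num
    rw [h2, dist_eq_norm, add_zero] at h1
    exact h1
  · obtain ⟨C1, hC1, hG⟩ := Gf_spec H (le_max_left R ‖Xs P b 0 (ψ (0, t))‖)
    have h1 := ((hG _ (le_max_right _ _)).1).const_mul 4
    refine le_of_tendsto_of_tendsto hlim.norm h1 ?_
    filter_upwards [eventually_ge_atTop (N + 1)] with n hn
    obtain ⟨j, rfl⟩ : ∃ j, n = j + 1 := ⟨n - 1, by omega⟩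
    have hj : N ≤ j := by omega
    have h2 := leaf_log H hψ ht (hLn j hj)
    have hV1 : Vs P b R (j + 1) (ψ (0, t)) := Vs_succ H (hLn j hj 0 h00)
    have hX := Xs_ne H hV1
    have hXpos : 0 < ‖Xs P b (j + 1 + 1) (ψ (0, t))‖ := norm_pos_iff.2 hX
    have hD := Dg_pos H (j + 1)
    rw [Ms_of_Vs hV1, gs, norm_div, norm_mul, Complex.norm_real, Real.norm_eq_abs,
      abs_of_pos hD, div_le_iff₀ (by positivity)]
    refine h2.trans (le_of_eq ?_)
    have e2 : Xs P b (j + 2) (ψ (0, t)) = Xs P b (j + 1 + 1) (ψ (0, t)) := rfl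
    rw [e2]
    field_simp

theorem leafV_nhds (H : GoodSeq P b R C)
    (hψ : DifferentiableOn ℂ ψ (ball (0 : ℂ) 1 ×ˢ ball (0 : ℂ) 1)) {t : ℂ}
    (ht : t ∈ ball (0 : ℂ) 1) (hU : ∀ s ∈ ball (0 : ℂ) 1, ∃ n, Vs P b R n (ψ (s, t))) :
    ∃ N, ∀ᶠ t' in 𝓝 t, LeafV P b R ψ N t' := by
  have key : ∃ N, ∀ᶠ t' in 𝓝 t, ∀ s ∈ closedBall (0 : ℂ) (1 / 2), Vs P b R N (ψ (s, t')) := by
    refine (isCompact_closedBall (0 : ℂ) (1 / 2)).induction_on
      (p := fun S => ∃ N, ∀ᶠ t' in 𝓝 t, ∀ s ∈ S, Vs P b R N (ψ (s, t'))) ?_ ?_ ?_ ?_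
    · exact ⟨0, Eventually.of_forall fun t' s hs => absurd hs (notMem_empty s)⟩
    · rintro S T hST ⟨N, hN⟩
      exact ⟨N, hN.mono fun t' h s hs => h s (hST hs)⟩
    · rintro S T ⟨N, hN⟩ ⟨N', hN'⟩
      refine ⟨max N N', ?_⟩
      filter_upwards [hN, hN'] with t' h1 h2 s hs
      rcases hs with hs | hs
      · exact Vs_mono H (le_max_left _ _) (h1 s hs)
      · exact Vs_mono H (le_max_right _ _) (h2 s hs)
    · intro s hs
      have hs1 : s ∈ ball (0 : ℂ) 1 := closedBall_subset_ball (by norm_num) hs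
      obtain ⟨n, hn⟩ := hU s hs1
      have h1 : ContinuousAt ψ (s, t) := (hψ.differentiableAt
        ((isOpen_ball.prod isOpen_ball).mem_nhds ⟨hs1, ht⟩)).continuousAt
      have h2 : ∀ᶠ q : ℂ × ℂ in 𝓝 (s, t), Vs P b R (n + 1) (ψ q) :=
        h1.eventually (Vs_eventually H hn)
      rw [nhds_prod_eq] at h2
      obtain ⟨p1, hp1, p2, hp2, h3⟩ := Filter.eventually_prod_iff.1 h2
      refine ⟨{s' | p1 s'}, mem_nhdsWithin_of_mem_nhds hp1, n + 1, ?_⟩
      filter_upwards [hp2] with t' ht' s' hs'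
      exact h3 hs' ht'
  obtain ⟨N, hN⟩ := key
  exact ⟨N, hN.mono fun t' h s hs => h s (ball_subset_closedBall hs)⟩

theorem gl_differentiableAt (H : GoodSeq P b R C)
    (hψ : DifferentiableOn ℂ ψ (ball (0 : ℂ) 1 ×ˢ ball (0 : ℂ) 1)) {t : ℂ}
    (ht : t ∈ ball (0 : ℂ) 1) {N : ℕ} (hN : ∀ᶠ t' in 𝓝 t, LeafV P b R ψ N t') :
    DifferentiableAt ℂ (gl P b R ψ) t := by
  obtain ⟨δ, hδ, hδsub⟩ := Metric.mem_nhds_iff.1 (hN.and (isOpen_ball.mem_nhds ht))
  have h00 : (0 : ℂ) ∈ ball (0 : ℂ) (1 / 2) := mem_ball_self (by norm_num)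
  have hLd : ∀ z ∈ ball t δ, LeafV P b R ψ N z := fun z hz => (hδsub hz).1
  have hbd : ∀ z ∈ ball t δ, z ∈ ball (0 : ℂ) 1 := fun z hz => (hδsub hz).2
  have hlim0 : Tendsto (fun n : ℕ => 4 * (1 / 2 : ℝ) ^ n) atTop (𝓝 0) := by
    have := (tendsto_pow_atTop_nhds_zero_of_lt_one (r := (1 / 2 : ℝ)) (by norm_num)
      (by norm_num)).const_mul 4
    simpa using this
  have huni : TendstoUniformlyOn (fun n z => gs P b ψ n z) (gl P b R ψ) atTop (ball t δ) := by
    rw [Metric.tendstoUniformlyOn_iff]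
    intro ε hε
    filter_upwards [hlim0.eventually_lt_const hε, eventually_ge_atTop N] with n hn hnN z hz
    have h1 := (gs_conv H hψ (hbd z hz) (hLd z hz)).1 n hnN
    rw [dist_comm, dist_eq_norm]
    refine lt_of_le_of_lt (h1.trans ?_) hn
    rw [one_div, inv_pow, ← div_eq_mul_inv]
    exact div_le_div_of_nonneg_left (by norm_num) (by positivity) (Dg_ge H n)
  have hdiff : DifferentiableOn ℂ (gl P b R ψ) (ball t δ) := by
    refine huni.tendstoLocallyUniformlyOn.differentiableOn ?_ isOpen_ball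
    filter_upwards [eventually_ge_atTop N] with n hn
    have e1 : DifferentiableOn ℂ (xi P b ψ (n + 1)) (ball t δ) :=
      (xi_differentiableOn hψ (n + 1)).mono hbd
    have e2 : DifferentiableOn ℂ (fun z => Xs P b (n + 1) (ψ (0, z))) (ball t δ) :=
      (Xs_differentiable P b _).comp_differentiableOn ((slice_t hψ).mono hbd)
    refine e1.div (e2.const_mul _) ?_
    intro z hz
    refine mul_ne_zero ?_ (Xs_ne H (Vs_mono H hn (hLd z hz 0 h00)))
    exact_mod_cast (Dg_pos H n).ne'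
  exact hdiff.differentiableAt (isOpen_ball.mem_nhds (mem_ball_self hδ))

theorem loc_h (H : GoodSeq P b R C)
    (hψ : DifferentiableOn ℂ ψ (ball (0 : ℂ) 1 ×ˢ ball (0 : ℂ) 1)) {t : ℂ}
    (ht : t ∈ ball (0 : ℂ) 1) (hG : 0 < Gf P b R (ψ (0, t))) :
    ∃ h : ℂ → ℂ, (∀ᶠ z in 𝓝 t, DifferentiableAt ℂ h z) ∧
      ∀ᶠ z in 𝓝 t, Gf P b R (ψ (0, z)) = (h z).re := by
  obtain ⟨n0, hn0⟩ := (Gf_pos_iff H).1 hG
  have hct : ContinuousAt (fun z => ψ (0, z)) t :=
    ((slice_t hψ).differentiableAt (isOpen_ball.mem_nhds ht)).continuousAt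
  obtain ⟨N, hVev⟩ : ∃ N, ∀ᶠ z in 𝓝 t, Vs P b R N (ψ (0, z)) :=
    ⟨n0 + 1, hct.eventually (Vs_eventually H hn0)⟩
  have hVt : Vs P b R N (ψ (0, t)) := hVev.self_of_nhds
  have hXt : Xs P b (N + 1) (ψ (0, t)) ≠ 0 := Xs_ne H hVt
  have hnear : ∀ᶠ z in 𝓝 t,
      ‖Xs P b (N + 1) (ψ (0, z)) / Xs P b (N + 1) (ψ (0, t)) - 1‖ < 1 / 2 := by
    have h1 : ContinuousAt (fun z => ‖Xs P b (N + 1) (ψ (0, z)) / Xs P b (N + 1) (ψ (0, t)) - 1‖) t :=
      ((((Xs_continuous P b (N + 1)).continuousAt.comp hct).div_const _).sub_const 1).norm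
    refine h1.eventually_lt_const ?_
    simp only [Function.comp_apply]
    rw [div_self hXt]; norm_num
  obtain ⟨δ, hδ, hδsub⟩ := Metric.mem_nhds_iff.1
    ((hVev.and hnear).and (isOpen_ball.mem_nhds ht))
  have hVd : ∀ z ∈ ball t δ, Vs P b R N (ψ (0, z)) := fun z hz => (hδsub hz).1.1
  have hnd : ∀ z ∈ ball t δ,
      ‖Xs P b (N + 1) (ψ (0, z)) / Xs P b (N + 1) (ψ (0, t)) - 1‖ < 1 / 2 :=
    fun z hz => (hδsub hz).1.2
  have hbd : ∀ z ∈ ball t δ, z ∈ ball (0 : ℂ) 1 := fun z hz => (hδsub hz).2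
  have hXd : ∀ k, DifferentiableOn ℂ (fun z => Xs P b k (ψ (0, z))) (ball t δ) := fun k =>
    (Xs_differentiable P b _).comp_differentiableOn ((slice_t hψ).mono hbd)
  obtain ⟨term, hterm⟩ : ∃ term : ℕ → ℂ → ℂ, ∀ j z, term j z =
      ((Real.log ‖(P (N + j)).leadingCoeff‖ : ℂ) + Complex.log (ws P b (N + j) (ψ (0, z))))
        / (Dg P (N + j + 1) : ℂ) := ⟨_, fun j z => rfl⟩
  have hVj : ∀ j, ∀ z ∈ ball t δ, Vs P b R (N + j) (ψ (0, z)) := fun j z hz =>
    Vs_mono H (by omega) (hVd z hz)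
  have htd : ∀ j, DifferentiableOn ℂ (term j) (ball t δ) := by
    intro j
    have hwd : DifferentiableOn ℂ (fun z => ws P b (N + j) (ψ (0, z))) (ball t δ) := by
      refine (hXd (N + j + 2)).div (((hXd (N + j + 1)).pow _).const_mul _) ?_
      intro z hz
      exact mul_ne_zero (lc_ne H _) (pow_ne_zero _ (Xs_ne H (hVj j z hz)))
    have hld := hwd.clog fun z hz => ws_slit H (hVj j z hz)
    have := (hld.const_add (Real.log ‖(P (N + j)).leadingCoeff‖ : ℂ)).div_const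
      (Dg P (N + j + 1) : ℂ)
    refine this.congr fun z hz => ?_
    rw [hterm]
  have htb : ∀ j, ∀ z ∈ ball t δ, ‖term j z‖ ≤ (C + 1) * (1 / 2) ^ j := by
    intro j z hz
    rw [hterm, norm_div, Complex.norm_real (Dg P (N + j + 1)), Real.norm_eq_abs,
      abs_of_pos (Dg_pos H _)]
    have h1 : ‖(Real.log ‖(P (N + j)).leadingCoeff‖ : ℂ)
        + Complex.log (ws P b (N + j) (ψ (0, z)))‖ ≤ C + 1 := by
      refine (norm_add_le _ _).trans ?_
      have h2 := (H.good (N + j)).lc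
      have h3 := ws_log_le H (hVj j z hz)
      rw [Complex.norm_real, Real.norm_eq_abs]
      linarith
    have hC := (H.good 0).hC
    have h4 : (2 : ℝ) ^ j ≤ Dg P (N + j + 1) := by
      refine le_trans ?_ (Dg_ge H (N + j + 1))
      exact pow_le_pow_right₀ (by norm_num) (by omega)
    rw [one_div, inv_pow, ← div_eq_mul_inv]
    exact div_le_div₀ (by linarith) h1 (by positivity) h4
  have hsum : Summable fun j : ℕ => (C + 1) * (1 / 2 : ℝ) ^ j :=
    (summable_geometric_of_lt_one (by norm_num) (by norm_num)).mul_left _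
  have hSd : DifferentiableOn ℂ (fun z => ∑' j, term j z) (ball t δ) :=
    Complex.differentiableOn_tsum_of_summable_norm hsum htd isOpen_ball htb
  have hslit : ∀ z ∈ ball t δ,
      Xs P b (N + 1) (ψ (0, z)) / Xs P b (N + 1) (ψ (0, t)) ∈ Complex.slitPlane := by
    intro z hz
    left
    have h2 := (abs_le.1 ((Complex.abs_re_le_norm
      (Xs P b (N + 1) (ψ (0, z)) / Xs P b (N + 1) (ψ (0, t)) - 1)).trans (hnd z hz).le)).1
    simp only [Complex.sub_re, Complex.one_re] at h2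
    linarith
  refine ⟨fun z => (Complex.log (Xs P b (N + 1) (ψ (0, z)) / Xs P b (N + 1) (ψ (0, t)))
    + (Real.log ‖Xs P b (N + 1) (ψ (0, t))‖ : ℂ)) / (Dg P N : ℂ) + ∑' j, term j z, ?_, ?_⟩
  · have hd : DifferentiableOn ℂ (fun z => (Complex.log (Xs P b (N + 1) (ψ (0, z))
        / Xs P b (N + 1) (ψ (0, t)))
        + (Real.log ‖Xs P b (N + 1) (ψ (0, t))‖ : ℂ)) / (Dg P N : ℂ) + ∑' j, term j z)
        (ball t δ) := by
      refine DifferentiableOn.add ?_ hSd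
      refine DifferentiableOn.div_const ?_ _
      refine DifferentiableOn.add_const _ ?_
      exact DifferentiableOn.clog ((hXd (N + 1)).div_const _) hslit
    filter_upwards [isOpen_ball.mem_nhds (mem_ball_self hδ)] with z hz
    exact hd.differentiableAt (isOpen_ball.mem_nhds hz)
  · filter_upwards [isOpen_ball.mem_nhds (mem_ball_self hδ)] with z hz
    have hV := hVd z hz
    have hXz : Xs P b (N + 1) (ψ (0, z)) ≠ 0 := Xs_ne H hV
    have hDN := Dg_pos H N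
    obtain ⟨C1, hC1, hGs⟩ := Gf_spec H (le_max_left R ‖Xs P b 0 (ψ (0, z))‖)
    have hlim := (hGs _ (le_max_right _ _)).1
    have hsumz : Summable (fun j => term j z) :=
      Summable.of_norm_bounded hsum fun j => htb j z hz
    have hre : HasSum (fun j => (term j z).re) (∑' j, term j z).re :=
      Complex.hasSum_re hsumz.hasSum
    have hre2 := hre.tendsto_sum_nat
    have htel : ∀ n : ℕ, ∑ j ∈ Finset.range n, (term j z).re =
        Real.log (Ms P b R (N + n) (ψ (0, z))) / Dg P (N + n)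
          - Real.log (Ms P b R N (ψ (0, z))) / Dg P N := by
      intro n
      induction n with
      | zero => simp
      | succ n ih =>
        rw [Finset.sum_range_succ, ih, hterm]
        have hVn := hVj n z hz
        have hVn1 := Vs_succ H hVn
        have e1 : N + (n + 1) = N + n + 1 := by ring
        rw [e1, Ms_of_Vs hVn, Ms_of_Vs hVn1]
        rw [Complex.div_ofReal_re, Complex.add_re, Complex.ofReal_re, Complex.log_re,
          ws_log_norm H hVn, Dg_succ (N + n)]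
        have hD := Dg_pos H (N + n)
        have hd0 : (0 : ℝ) < (P (N + n)).natDegree := by
          have := (H.good (N + n)).deg
          exact_mod_cast (by omega : 0 < (P (N + n)).natDegree)
        have e2 : Xs P b (N + n + 2) (ψ (0, z)) = Xs P b (N + n + 1 + 1) (ψ (0, z)) := rfl
        rw [e2]
        field_simp
        ring
    have hlim2 : Tendsto (fun n => ∑ j ∈ Finset.range n, (term j z).re) atTop
        (𝓝 (Gf P b R (ψ (0, z)) - Real.log (Ms P b R N (ψ (0, z))) / Dg P N)) := by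
      simp_rw [htel]
      refine Tendsto.sub_const ?_ _
      have := (tendsto_add_atTop_iff_nat N).2 hlim
      simpa [add_comm] using this
    have huniq := tendsto_nhds_unique hre2 hlim2
    rw [Complex.add_re, huniq, Complex.div_ofReal_re, Complex.add_re, Complex.ofReal_re,
      Complex.log_re, norm_div, Real.log_div (norm_ne_zero_iff.2 hXz) (norm_ne_zero_iff.2 hXt),
      Ms_of_Vs hV]
    ring

/-- Main theorem in chart form. -/
theorem no_foliation (H : GoodSeq P b R C)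
    (hψ : DifferentiableOn ℂ ψ (ball (0 : ℂ) 1 ×ˢ ball (0 : ℂ) 1))
    (hdich : ∀ t ∈ ball (0 : ℂ) 1, (∀ s ∈ ball (0 : ℂ) 1, ∃ n, Vs P b R n (ψ (s, t))) ∨
      (∀ s ∈ ball (0 : ℂ) 1, ∀ n, ¬ Vs P b R n (ψ (s, t))))
    (h0 : ∀ n, ¬ Vs P b R n (ψ (0, 0)))
    (hder : ∀ t ∈ ball (0 : ℂ) 1, ¬ (xi P b ψ 1 t = 0 ∧ xi P b ψ 0 t = 0)) :
    ∀ᶠ t in 𝓝 (0 : ℂ), Gf P b R (ψ (0, t)) = 0 := by
  have h01 : (0 : ℂ) ∈ ball (0 : ℂ) 1 := mem_ball_self one_pos
  have h00 : (0 : ℂ) ∈ ball (0 : ℂ) (1 / 2) := mem_ball_self (by norm_num)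
  have hGcont : ContinuousOn (fun t => Gf P b R (ψ (0, t))) (ball (0 : ℂ) 1) :=
    (Gf_continuous H).comp_continuousOn (slice_t hψ).continuousOn
  have hG00 : Gf P b R (ψ (0, 0)) = 0 := Gf_eq_zero H h0
  have hleaf : ∀ t ∈ ball (0 : ℂ) 1, 0 < Gf P b R (ψ (0, t)) →
      ∃ N, ∀ᶠ t' in 𝓝 t, LeafV P b R ψ N t' := by
    intro t ht hpos
    refine leafV_nhds H hψ ht ?_
    rcases hdich t ht with h | h
    · exact h
    · rw [Gf_eq_zero H (h 0 h01)] at hpos
      exact absurd hpos (lt_irrefl _)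
  -- Step A
  have hA : ∀ t ∈ ball (0 : ℂ) 1, gl P b R ψ t = 0 := by
    refine lemmaA (G := fun t => Gf P b R (ψ (0, t))) (C := 4) hGcont
      (fun t _ => Gf_nonneg H _) hG00 (fun t ht hpos => loc_h H hψ ht hpos) ?_ ?_
    · intro t ht hpos
      obtain ⟨N, hN⟩ := hleaf t ht hpos
      exact gl_differentiableAt H hψ ht hN
    · intro t ht
      rcases eq_or_lt_of_le (Gf_nonneg H (ψ (0, t))) with h | h
      · have : gl P b R ψ t = 0 := by
          rw [gl, if_neg]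
          rw [← h]; exact lt_irrefl _
        rw [this, norm_zero, ← h, mul_zero]
      · obtain ⟨N, hN⟩ := hleaf t ht h
        exact (gs_conv H hψ ht hN.self_of_nhds).2
  -- decreasing derivatives
  have hdecr : ∀ t ∈ ball (0 : ℂ) 1, ∀ N, Vs P b R N (ψ (0, t)) →
      ∀ n ≥ N, ‖xi P b ψ (n + 1) t‖ < ‖xi P b ψ n t‖ := by
    intro t ht N hN
    obtain ⟨N', hN'⟩ := hleaf t ht (Gf_pos_of_Vs H hN)
    have hL := hN'.self_of_nhds
    refine (xi_linRec hψ ht).decr H (hder t ht) hN (B := 4) (N' := N') ?_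
    intro n hn
    have h1 := (gs_conv H hψ ht hL).1 n hn
    rw [hA t ht, sub_zero, gs, norm_div, norm_mul, Complex.norm_real, Real.norm_eq_abs,
      abs_of_pos (Dg_pos H n)] at h1
    have hD := Dg_pos H n
    have hX := Xs_ne H (Vs_mono H hn (hL 0 h00))
    have hXpos : 0 < ‖Xs P b (n + 1) (ψ (0, t))‖ := norm_pos_iff.2 hX
    rw [div_le_div_iff₀ (by positivity) hD] at h1
    have h2 : ‖xi P b ψ (n + 1) t‖ * Dg P n ≤ (4 * ‖Xs P b (n + 1) (ψ (0, t))‖) * Dg P n := by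
      linarith
    exact le_of_mul_le_mul_right h2 hD
  -- Step B
  have hsub : closedBall (0 : ℂ) (1 / 2) ⊆ ball (0 : ℂ) 1 := closedBall_subset_ball (by norm_num)
  have hsub' : ball (0 : ℂ) (1 / 2) ⊆ ball (0 : ℂ) 1 := ball_subset_ball (by norm_num)
  obtain ⟨M1, hM1⟩ := (isCompact_closedBall (0 : ℂ) (1 / 2)).exists_bound_of_continuousOn
    ((slice_t hψ).continuousOn.mono hsub)
  obtain ⟨M2, hM2⟩ := (isCompact_closedBall (0 : ℂ) (1 / 2)).exists_bound_of_continuousOn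
    ((xi_differentiableOn (P := P) (b := b) hψ 0).continuousOn.mono hsub)
  obtain ⟨M3, hM3⟩ := (isCompact_closedBall (0 : ℂ) (1 / 2)).exists_bound_of_continuousOn
    ((xi_differentiableOn (P := P) (b := b) hψ 1).continuousOn.mono hsub)
  obtain ⟨K, hK⟩ := upper_bound H (R1 := max R M1) (Ξ := max 1 (max M2 M3)) (le_max_left _ _)
    (le_max_left _ _)
  refine lemmaB (G := fun t => Gf P b R (ψ (0, t))) (ξ := xi P b ψ) (D := Dg P) (ρ := 1 / 2)
    (C := K) (by norm_num) (hGcont.mono hsub') (fun t _ => Gf_nonneg H _) hG00 (Dg_ge H)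
    (fun n => (xi_differentiableOn hψ n).mono hsub') ?_ ?_
  · intro t ht n
    have htc := ball_subset_closedBall ht
    have ht1 := hsub' ht
    refine hK (ψ (0, t)) ?_ ?_ (fun n => xi P b ψ n t) (xi_linRec hψ ht1) ?_ ?_ ?_ n
    · exact (norm_fst_le _).trans ((hM1 t htc).trans (le_max_right _ _))
    · exact (norm_snd_le _).trans ((hM1 t htc).trans (le_max_right _ _))
    · exact (hM2 t htc).trans ((le_max_left _ _).trans (le_max_right _ _))
    · exact (hM3 t htc).trans ((le_max_right _ _).trans (le_max_right _ _))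
    · intro N hN n hn
      exact hdecr t ht1 N hN n hn
  · intro t ht hpos
    have ht1 := hsub' ht
    obtain ⟨N, hN⟩ := (Gf_pos_iff H).1 hpos
    exact lower_bound H (xi_linRec hψ ht1) hN (hdecr t ht1 N hN)

end

end Pool.Agent.H701R2.Fol
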