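import Pool.Agent.H701R2.FolG

set_option autoImplicit false

open Metric Set Filter Topology Polynomial

namespace Pool.Agent.H701R2.Fol

theorem foldr_iter {α : Type*} : ∀ (m : ℕ) (G : Fin m → α → α) (u : ℕ → α),
    (∀ j (hj : j < m), u (j + 1) = G ⟨m - 1 - j, by omega⟩ (u j)) →
    (List.ofFn G).foldr (fun g h => g ∘ h) id (u 0) = u m := by
  intro m
  induction m with
  | zero => intro G u _; simp
  | succ m ih =>
    intro G u hu
    rw [List.ofFn_succ, List.foldr_cons, Function.comp_apply]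
    rw [ih (fun i => G i.succ) u ?_]
    · have := hu m (by omega)
      rw [this]
      congr 1
      congr 1
      ext
      show (0 : ℕ) = m + 1 - 1 - m
      omega
    · intro j hj
      have := hu j (by omega)
      rw [this]
      show G _ (u j) = G (Fin.succ _) (u j)
      congr 1
      ext
      show m + 1 - 1 - j = (m - 1 - j) + 1
      omega

theorem exists_bdd {m : ℕ} (p : Fin m → ℂ[X]) (a : Fin m → ℂ) (R1 : ℝ) :
    ∃ Λ : ℝ, ∀ i, ∀ x y : ℂ, ‖x‖ ≤ R1 → ‖y‖ ≤ R1 →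
      ‖(p i).eval x - a i * y‖ ≤ Λ ∧ ‖(p i).derivative.eval x‖ + ‖a i‖ ≤ Λ := by
  have h1 : ∀ i, ∃ M : ℝ, ∀ x ∈ closedBall (0 : ℂ) R1, ‖(p i).eval x‖ ≤ M := fun i =>
    (isCompact_closedBall (0 : ℂ) R1).exists_bound_of_continuousOn (p i).continuous.continuousOn
  have h2 : ∀ i, ∃ M : ℝ, ∀ x ∈ closedBall (0 : ℂ) R1, ‖(p i).derivative.eval x‖ ≤ M := fun i =>
    (isCompact_closedBall (0 : ℂ) R1).exists_bound_of_continuousOn
      (p i).derivative.continuous.continuousOn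
  choose M hM using h1
  choose M' hM' using h2
  set B : Fin m → ℝ := fun i => |M i| + ‖a i‖ * |R1| + |M' i| + ‖a i‖ with hB
  have hB0 : ∀ i, 0 ≤ B i := fun i => by positivity
  refine ⟨∑ i, B i, fun i x y hx hy => ?_⟩
  have hle : B i ≤ ∑ i, B i := Finset.single_le_sum (f := B) (fun i _ => hB0 i) (Finset.mem_univ i)
  have e1 := hM i x (mem_closedBall_zero_iff.2 hx)
  have e2 := hM' i x (mem_closedBall_zero_iff.2 hx)
  have e3 := le_abs_self (M i)
  have e4 := le_abs_self (M' i)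
  have e5 : ‖a i‖ * ‖y‖ ≤ ‖a i‖ * |R1| := by gcongr; exact hy.trans (le_abs_self _)
  have e6 : 0 ≤ ‖a i‖ * |R1| := by positivity
  have e7 := norm_nonneg (a i)
  have e8 := abs_nonneg (M i)
  have e9 := abs_nonneg (M' i)
  have hBi : B i = |M i| + ‖a i‖ * |R1| + |M' i| + ‖a i‖ := rfl
  constructor
  · have : ‖(p i).eval x - a i * y‖ ≤ ‖(p i).eval x‖ + ‖a i‖ * ‖y‖ := by
      rw [← norm_mul]; exact norm_sub_le _ _
    linarith
  · linarith

theorem main {m : ℕ} (hm : 0 < m) (p : Fin m → ℂ[X]) (a : Fin m → ℂ)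
    (hd : ∀ i, 2 ≤ (p i).natDegree) (ha : ∀ i, a i ≠ 0) (f : ℂ × ℂ → ℂ × ℂ)
    (hf : f = (List.ofFn (fun i : Fin m => fun z : ℂ × ℂ =>
          ((p i).eval z.1 - a i * z.2, z.1))).foldr (fun g h => g ∘ h) id)
    (ψ φ : ℂ × ℂ → ℂ × ℂ)
    (hψ : DifferentiableOn ℂ ψ (ball (0 : ℂ) 1 ×ˢ ball (0 : ℂ) 1))
    (hop : IsOpen (ψ '' (ball (0 : ℂ) 1 ×ˢ ball (0 : ℂ) 1)))
    (hφ : DifferentiableOn ℂ φ (ψ '' (ball (0 : ℂ) 1 ×ˢ ball (0 : ℂ) 1)))
    (hinv : Set.InvOn φ ψ (ball (0 : ℂ) 1 ×ˢ ball (0 : ℂ) 1)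
        (ψ '' (ball (0 : ℂ) 1 ×ˢ ball (0 : ℂ) 1)))
    (h0 : ψ 0 ∈ frontier {z : ℂ × ℂ | Bornology.IsBounded (Set.range fun n : ℕ => f^[n] z)})
    (hfol : ∀ x₁ ∈ ball (0 : ℂ) 1, ∀ x₂ ∈ ball (0 : ℂ) 1, ∀ y ∈ ball (0 : ℂ) 1,
        (ψ (x₁, y) ∈ frontier {z : ℂ × ℂ | Bornology.IsBounded (Set.range fun n : ℕ => f^[n] z)} ↔
         ψ (x₂, y) ∈ frontier {z : ℂ × ℂ | Bornology.IsBounded (Set.range fun n : ℕ => f^[n] z)})) :
    False := by
  obtain ⟨R, C, hgood⟩ := exists_good_fin p a hd ha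
  set P : ℕ → ℂ[X] := fun j => p ⟨m - 1 - j % m, by omega⟩ with hP
  set b : ℕ → ℂ := fun j => a ⟨m - 1 - j % m, by omega⟩ with hb
  have H : GoodSeq P b R C :=
    { good := fun j => hgood _
      bdd := fun R1 => by
        obtain ⟨Λ, hΛ⟩ := exists_bdd p a R1
        exact ⟨Λ, fun j x y hx hy => hΛ _ x y hx hy⟩ }
  have hR := (H.good 0).hR
  -- iterates
  have hiter1 : ∀ (k : ℕ) (z : ℂ × ℂ),
      f (Xs P b (k * m + 1) z, Xs P b (k * m) z)
        = (Xs P b ((k + 1) * m + 1) z, Xs P b ((k + 1) * m) z) := by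
    intro k z
    have h1 := foldr_iter m (fun i : Fin m => fun z : ℂ × ℂ =>
          ((p i).eval z.1 - a i * z.2, z.1))
          (fun j => (Xs P b (k * m + j + 1) z, Xs P b (k * m + j) z)) (by
        intro j hj
        have e1 : (k * m + j) % m = j := by
          rw [Nat.mul_comm, Nat.mul_add_mod, Nat.mod_eq_of_lt hj]
        have e2 : Xs P b (k * m + (j + 1) + 1) z = (P (k * m + j)).eval (Xs P b (k * m + j + 1) z)
            - b (k * m + j) * Xs P b (k * m + j) z := rfl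
        simp only [e2]
        have e3 : P (k * m + j) = p ⟨m - 1 - j, by omega⟩ := by
          simp only [hP, e1]
        have e4 : b (k * m + j) = a ⟨m - 1 - j, by omega⟩ := by
          simp only [hb, e1]
        rw [e3, e4]
        rfl)
    rw [← hf] at h1
    simp only [add_zero] at h1
    rw [h1]
    have e5 : k * m + m = (k + 1) * m := by ring
    rw [e5]
  have hiter : ∀ (k : ℕ) (z : ℂ × ℂ),
      f^[k] z = (Xs P b (k * m + 1) z, Xs P b (k * m) z) := by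
    intro k z
    induction k with
    | zero => simp [Xs]
    | succ k ih => rw [Function.iterate_succ_apply', ih, hiter1]
  set K : Set (ℂ × ℂ) := {z | ∀ n, ¬ Vs P b R n z} with hK
  have hKeq : {z : ℂ × ℂ | Bornology.IsBounded (Set.range fun n : ℕ => f^[n] z)} = K := by
    ext z
    simp only [mem_ofPred_eq, hK]
    constructor
    · intro hbdd n hV
      obtain ⟨B, hB⟩ := hbdd.exists_norm_le
      have htend : Tendsto (fun k : ℕ => (2 : ℝ) ^ k) atTop atTop :=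
        tendsto_pow_atTop_atTop_of_one_lt (by norm_num)
      obtain ⟨k, hk⟩ := (htend.eventually_gt_atTop B).exists
      have hle : n + k ≤ (n + k) * m := Nat.le_mul_of_pos_right _ hm
      obtain ⟨j, hj⟩ := Nat.exists_eq_add_of_le hle
      have h1 := Vs_growth H hV (k + j)
      have h2 : ‖f^[n + k] z‖ ≤ B := hB _ ⟨n + k, rfl⟩
      rw [hiter] at h2
      have h3 : ‖Xs P b ((n + k) * m + 1) z‖ ≤ B := (norm_fst_le _).trans h2
      rw [hj] at h3
      have e1 : n + (k + j) + 1 = n + k + j + 1 := by ring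
      rw [e1] at h1
      have h4 : (2 : ℝ) ^ k * 1 ≤ 2 ^ (k + j) * ‖Xs P b (n + 1) z‖ := by
        gcongr
        · norm_num
        · omega
        · linarith [hV.1]
      linarith
    · intro hV
      rw [isBounded_iff_forall_norm_le]
      refine ⟨max R ‖Xs P b 0 z‖, ?_⟩
      rintro _ ⟨k, rfl⟩
      have h1 : ∀ j, ‖Xs P b j z‖ ≤ max R ‖Xs P b 0 z‖ := fun j =>
        not_Vs_bound H (le_max_left _ _) (le_max_right _ _) (hV j) j (by omega)
      simp only [hiter]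
      exact max_le (h1 _) (h1 _)
  rw [hKeq] at h0 hfol
  have hKG : K = Gf P b R ⁻¹' {0} := by
    ext z
    simp only [hK, mem_ofPred_eq, mem_preimage, mem_singleton_iff]
    constructor
    · intro h; exact Gf_eq_zero H h
    · intro h n hn
      have := Gf_pos_of_Vs H hn
      rw [h] at this
      exact lt_irrefl _ this
  have hKcl : IsClosed K := by
    rw [hKG]; exact isClosed_singleton.preimage (Gf_continuous H)
  have hfrK : frontier K ⊆ K := hKcl.frontier_subset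
  have h01 : (0 : ℂ) ∈ ball (0 : ℂ) 1 := mem_ball_self one_pos
  have hdich : ∀ t ∈ ball (0 : ℂ) 1, (∀ s ∈ ball (0 : ℂ) 1, ∃ n, Vs P b R n (ψ (s, t))) ∨
      (∀ s ∈ ball (0 : ℂ) 1, ∀ n, ¬ Vs P b R n (ψ (s, t))) := by
    intro t ht
    by_contra hcon
    push Not at hcon
    obtain ⟨⟨s1, hs1, h1⟩, ⟨s2, hs2, n, h2⟩⟩ := hcon
    have hpre : IsPreconnected ((fun s => ψ (s, t)) '' ball (0 : ℂ) 1) :=
      (convex_ball (0 : ℂ) 1).isPreconnected.image _ (slice_s hψ ht).continuousOn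
    obtain ⟨s3, hs3, h4⟩ : ∃ s3 ∈ ball (0 : ℂ) 1, ψ (s3, t) ∈ frontier K := by
      by_contra hno
      push Not at hno
      have hcov : (fun s => ψ (s, t)) '' ball (0 : ℂ) 1 ⊆ Kᶜ ∪ interior K := by
        rintro _ ⟨s, hs, rfl⟩
        by_cases hsK : ψ (s, t) ∈ K
        · right
          by_contra hi
          exact hno s hs ⟨subset_closure hsK, hi⟩
        · left; exact hsK
      have hmem : ∀ s ∈ ball (0 : ℂ) 1, ψ (s, t) ∈ K → ψ (s, t) ∈ interior K := by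
        intro s hs hsK
        by_contra hi
        exact hno s hs ⟨subset_closure hsK, hi⟩
      have key : ∀ s1 ∈ ball (0 : ℂ) 1, ∀ s2 ∈ ball (0 : ℂ) 1, ψ (s1, t) ∈ K → ψ (s2, t) ∉ K →
          False := by
        intro s1 hs1 s2 hs2 h1 h2
        obtain ⟨z, _, hz1, hz2⟩ := hpre Kᶜ (interior K) hKcl.isOpen_compl isOpen_interior hcov
          ⟨ψ (s2, t), ⟨s2, hs2, rfl⟩, h2⟩ ⟨ψ (s1, t), ⟨s1, hs1, rfl⟩, hmem s1 hs1 h1⟩
        exact hz1 (interior_subset hz2)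
      exact key s1 hs1 s2 hs2 h1 (fun h => h n h2)
    have h5 := (hfol s3 hs3 s2 hs2 t ht).1 h4
    exact hfrK h5 n h2
  have h0K : ∀ n, ¬ Vs P b R n (ψ (0, 0)) := hfrK h0
  have hder : ∀ t ∈ ball (0 : ℂ) 1, ¬ (xi P b ψ 1 t = 0 ∧ xi P b ψ 0 t = 0) := by
    rintro t ht ⟨h1, h2⟩
    have hmem : ((0 : ℂ), t) ∈ ball (0 : ℂ) 1 ×ˢ ball (0 : ℂ) 1 := ⟨h01, ht⟩
    have hσ : HasDerivAt (fun s => ψ (s, t)) (deriv (fun s => ψ (s, t)) 0) 0 :=
      ((slice_s hψ ht).differentiableAt (isOpen_ball.mem_nhds h01)).hasDerivAt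
    have e1 : (deriv (fun s => ψ (s, t)) 0).1 = 0 := by
      have d1 := xi_hasDerivAt (P := P) (b := b) hψ ht 1
      rw [h1] at d1
      have d2 : HasDerivAt (fun s => (ψ (s, t)).1) (deriv (fun s => ψ (s, t)) 0).1 0 :=
        (ContinuousLinearMap.fst ℂ ℂ ℂ).hasFDerivAt.comp_hasDerivAt (0 : ℂ) hσ
      exact d2.unique d1
    have e2 : (deriv (fun s => ψ (s, t)) 0).2 = 0 := by
      have d1 := xi_hasDerivAt (P := P) (b := b) hψ ht 0
      rw [h2] at d1
      have d2 : HasDerivAt (fun s => (ψ (s, t)).2) (deriv (fun s => ψ (s, t)) 0).2 0 :=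
        (ContinuousLinearMap.snd ℂ ℂ ℂ).hasFDerivAt.comp_hasDerivAt (0 : ℂ) hσ
      exact d2.unique d1
    have e3 : deriv (fun s => ψ (s, t)) 0 = 0 := Prod.ext e1 e2
    rw [e3] at hσ
    have hφd : DifferentiableAt ℂ φ (ψ (0, t)) :=
      hφ.differentiableAt (hop.mem_nhds ⟨(0, t), hmem, rfl⟩)
    have d3 : HasDerivAt (fun s => φ (ψ (s, t))) (fderiv ℂ φ (ψ (0, t)) 0) 0 :=
      hφd.hasFDerivAt.comp_hasDerivAt (0 : ℂ) hσ
    rw [map_zero] at d3
    have d4 : HasDerivAt (fun s : ℂ => (s, t)) ((1 : ℂ), (0 : ℂ)) 0 :=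
      (hasDerivAt_id (0 : ℂ)).prodMk (hasDerivAt_const (0 : ℂ) t)
    have d5 : HasDerivAt (fun s : ℂ => (s, t)) (0 : ℂ × ℂ) 0 := by
      refine d3.congr_of_eventuallyEq ?_
      filter_upwards [isOpen_ball.mem_nhds h01] with s hs
      exact (hinv.1 (show (s, t) ∈ ball (0 : ℂ) 1 ×ˢ ball (0 : ℂ) 1 from ⟨hs, ht⟩)).symm
    have := d4.unique d5
    have h7 := congrArg Prod.fst this
    simp at h7
  have hmain := no_foliation H hψ hdich h0K hder
  -- contradiction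
  have h0D : (0 : ℂ × ℂ) ∈ ball (0 : ℂ) 1 ×ˢ ball (0 : ℂ) 1 := ⟨h01, h01⟩
  have hφc : ContinuousAt φ (ψ 0) :=
    (hφ.differentiableAt (hop.mem_nhds ⟨0, h0D, rfl⟩)).continuousAt
  have hφ0 : φ (ψ 0) = 0 := hinv.1 h0D
  have hsnd : Tendsto (fun z => (φ z).2) (𝓝 (ψ 0)) (𝓝 (0 : ℂ)) := by
    have h1 : Tendsto (fun z => (φ z).2) (𝓝 (ψ 0)) (𝓝 (φ (ψ 0)).2) := hφc.snd
    rw [hφ0] at h1
    exact h1
  have hint : K ∈ 𝓝 (ψ 0) := by
    filter_upwards [hop.mem_nhds ⟨0, h0D, rfl⟩, hsnd.eventually hmain] with z hz1 hz2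
    obtain ⟨x, hx, rfl⟩ := hz1
    have hx2 : φ (ψ x) = x := hinv.1 hx
    rw [hx2] at hz2
    rcases hdich x.2 hx.2 with h | h
    · obtain ⟨n, hn⟩ := h 0 h01
      have := Gf_pos_of_Vs H hn
      rw [hz2] at this
      exact absurd this (lt_irrefl _)
    · exact h x.1 hx.1
  have h8 := h0.2
  exact h8 (mem_interior_iff_mem_nhds.2 hint)

end Pool.Agent.H701R2.Fol
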